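import Mathlib

/-! The building of `GL_3`, from the ordered set of all lattices in `F ^ 3` (abstract version):
`sh k x` is `π ^ k x`, `vol` is the valuation of the determinant. -/

set_option autoImplicit false

namespace Pool.Agent.B3

/-- A group `G` which acts on an ordered set of lattices. -/
structure GS (G Λ : Type) [Group G] [Lattice Λ] [MulAction G Λ] where
  sh : ℤ → Λ → Λ
  sh_zero : ∀ x, sh 0 x = x
  sh_add : ∀ a b x, sh (a + b) x = sh a (sh b x)
  sh_mono : ∀ a x y, x ≤ y → sh a x ≤ sh a y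
  sh_one : ∀ x, sh 1 x ≤ x
  vol : Λ → ℤ
  vol_sh : ∀ a x, vol (sh a x) = vol x + 3 * a
  vol_lt : ∀ x y, x < y → vol y < vol x
  arch : ∀ x y, ∃ k : ℤ, sh k x ≤ y
  smul_le : ∀ (g : G) (x y : Λ), x ≤ y → g • x ≤ g • y
  smul_sh : ∀ (g : G) (a : ℤ) (x : Λ), g • sh a x = sh a (g • x)
  smul_vol : ∀ (g : G) (x : Λ), vol (g • x) = vol x

variable {G Λ : Type} [Group G] [Lattice Λ] [MulAction G Λ] (S : GS G Λ)

namespace GS

theorem sh_neg (a : ℤ) (x : Λ) : S.sh (-a) (S.sh a x) = x := by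
  rw [← S.sh_add, neg_add_cancel, S.sh_zero]

theorem sh_neg' (a : ℤ) (x : Λ) : S.sh a (S.sh (-a) x) = x := by
  rw [← S.sh_add, add_neg_cancel, S.sh_zero]

theorem sh_le_iff (a : ℤ) (x y : Λ) : S.sh a x ≤ S.sh a y ↔ x ≤ y := by
  refine ⟨fun h => ?_, S.sh_mono a x y⟩
  have h1 := S.sh_mono (-a) _ _ h
  rwa [S.sh_neg, S.sh_neg] at h1

theorem sh_lt_iff (a : ℤ) (x y : Λ) : S.sh a x < S.sh a y ↔ x < y := by
  rw [lt_iff_le_not_ge, lt_iff_le_not_ge, S.sh_le_iff, S.sh_le_iff]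

theorem sh_le_iff' (a : ℤ) (x y : Λ) : S.sh a x ≤ y ↔ x ≤ S.sh (-a) y := by
  rw [← S.sh_le_iff (-a), S.sh_neg]

theorem sh_lt_iff' (a : ℤ) (x y : Λ) : S.sh a x < y ↔ x < S.sh (-a) y := by
  rw [← S.sh_lt_iff (-a), S.sh_neg]

theorem sh_nat (n : ℕ) (x : Λ) : S.sh n x ≤ x := by
  induction n with
  | zero => rw [Nat.cast_zero, S.sh_zero]
  | succ n ih =>
    rw [Nat.cast_succ, add_comm, S.sh_add]
    exact (S.sh_one _).trans ih

theorem sh_anti {a b : ℤ} (h : a ≤ b) (x : Λ) : S.sh b x ≤ S.sh a x := by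
  obtain ⟨n, rfl⟩ := Int.le.dest h
  rw [add_comm, S.sh_add]
  exact S.sh_nat n _

theorem vol_le {x y : Λ} (h : x ≤ y) : S.vol y ≤ S.vol x := by
  rcases h.lt_or_eq with h | rfl
  · exact (S.vol_lt _ _ h).le
  · exact le_rfl

theorem eq_of_vol {x y : Λ} (h : x ≤ y) (hv : S.vol x ≤ S.vol y) : x = y := by
  rcases h.lt_or_eq with h | h
  · exact absurd (S.vol_lt _ _ h) (not_lt.2 hv)
  · exact h

/-! ### The distance -/

theorem exists_least (x y : Λ) : ∃ k : ℤ, S.sh k x ≤ y ∧ ∀ l : ℤ, S.sh l x ≤ y → k ≤ l := by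
  refine Int.exists_least_of_bdd (P := fun k => S.sh k x ≤ y) ⟨min 0 (S.vol y - S.vol x), ?_⟩
    (S.arch x y)
  intro k hk
  have h1 := S.vol_le hk
  rw [S.vol_sh] at h1
  omega

/-- The least `k` with `π ^ k x ≤ y`. -/
noncomputable def E (x y : Λ) : ℤ := Classical.choose (S.exists_least x y)

theorem E_spec (x y : Λ) : S.sh (S.E x y) x ≤ y := (Classical.choose_spec (S.exists_least x y)).1

theorem E_le_iff {x y : Λ} {k : ℤ} : S.E x y ≤ k ↔ S.sh k x ≤ y :=
  ⟨fun h => (S.sh_anti h x).trans (S.E_spec x y),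
    (Classical.choose_spec (S.exists_least x y)).2 k⟩

theorem E_eq_of {x y : Λ} {k : ℤ} (h : ∀ l, S.sh l x ≤ y ↔ k ≤ l) : S.E x y = k :=
  le_antisymm (S.E_le_iff.2 ((h k).2 le_rfl)) ((h _).1 (S.E_spec x y))

theorem E_sh_left (a : ℤ) (x y : Λ) : S.E (S.sh a x) y = S.E x y - a := by
  refine S.E_eq_of fun l => ?_
  rw [← S.sh_add, ← S.E_le_iff]
  omega

theorem E_sh_right (a : ℤ) (x y : Λ) : S.E x (S.sh a y) = S.E x y + a := by
  refine S.E_eq_of fun l => ?_
  have h1 : S.sh l x = S.sh a (S.sh (l - a) x) := by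
    rw [← S.sh_add]
    congr 1
    omega
  rw [h1, S.sh_le_iff, ← S.E_le_iff]
  omega

theorem E_tri (x y z : Λ) : S.E x z ≤ S.E x y + S.E y z := by
  rw [S.E_le_iff, add_comm, S.sh_add]
  exact (S.sh_mono _ _ _ (S.E_spec x y)).trans (S.E_spec y z)

theorem E_self (x : Λ) : S.E x x = 0 := by
  refine S.E_eq_of fun l => ⟨fun h => ?_, fun h => ?_⟩
  · have h1 := S.vol_le h
    rw [S.vol_sh] at h1
    omega
  · have h1 := S.sh_anti h x
    rwa [S.sh_zero] at h1

/-- The distance. -/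
noncomputable def D (x y : Λ) : ℤ := S.E x y + S.E y x

theorem D_nonneg (x y : Λ) : 0 ≤ S.D x y := by
  have h := S.E_tri x y x
  rw [S.E_self] at h
  exact h

theorem D_self (x : Λ) : S.D x x = 0 := by
  rw [D, S.E_self, add_zero]

theorem D_sh (a : ℤ) (x y : Λ) : S.D x (S.sh a y) = S.D x y := by
  rw [D, D, S.E_sh_left, S.E_sh_right]
  omega

theorem eq_of_D {x y : Λ} (h : S.D x y = 0) : y = S.sh (S.E x y) x := by
  refine le_antisymm ?_ (S.E_spec x y)
  have h1 := S.E_spec y x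
  have h2 : S.E y x = - S.E x y := by
    rw [D] at h
    omega
  rw [h2, S.sh_le_iff', neg_neg] at h1
  exact h1

/-! ### Windows -/

/-- `π y < m < y`. -/
def Win (y m : Λ) : Prop := S.sh 1 y < m ∧ m < y

theorem Win.vol {S : GS G Λ} {y m : Λ} (h : S.Win y m) :
    S.vol m = S.vol y + 1 ∨ S.vol m = S.vol y + 2 := by
  have h1 := S.vol_lt _ _ h.1
  have h2 := S.vol_lt _ _ h.2
  rw [S.vol_sh] at h1
  omega

/-- `p`. -/
def Pp (o y m : Λ) : Prop := S.sh (S.E o y) o ≤ m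

/-- `q`. -/
def Pq (o y m : Λ) : Prop := m ≤ S.sh (1 - S.E y o) o

theorem E_win_left {o y m : Λ} (h : S.Win y m) :
    (S.Pp o y m → S.E o m = S.E o y) ∧ (¬ S.Pp o y m → S.E o m = S.E o y + 1) := by
  have h1 : S.E o y ≤ S.E o m := S.E_le_iff.2 ((S.E_spec o m).trans h.2.le)
  have h2 : S.E o m ≤ S.E o y + 1 := by
    rw [S.E_le_iff, add_comm, S.sh_add]
    exact (S.sh_mono _ _ _ (S.E_spec o y)).trans h.1.le
  refine ⟨fun hp => le_antisymm (S.E_le_iff.2 hp) h1, fun hp => le_antisymm h2 ?_⟩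
  by_contra hlt
  have h3 : S.E o m = S.E o y := by omega
  exact hp (S.E_le_iff.1 h3.le)

theorem E_win_right {o y m : Λ} (h : S.Win y m) :
    (S.Pq o y m → S.E m o = S.E y o - 1) ∧ (¬ S.Pq o y m → S.E m o = S.E y o) := by
  have h1 : S.E m o ≤ S.E y o := S.E_le_iff.2 ((S.sh_mono _ _ _ h.2.le).trans (S.E_spec y o))
  have h2 : S.E y o - 1 ≤ S.E m o := by
    rw [← S.E_sh_left]
    exact S.E_le_iff.2 ((S.sh_mono _ _ _ h.1.le).trans (S.E_spec m o))
  have h3 : S.Pq o y m ↔ S.E m o ≤ S.E y o - 1 := by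
    rw [S.E_le_iff, S.sh_le_iff', Pq, neg_sub]
  refine ⟨fun hq => le_antisymm (h3.1 hq) h2, fun hq => le_antisymm h1 ?_⟩
  by_contra hlt
  exact hq (h3.2 (by omega))

open Classical in
/-- The distance in a window. -/
theorem D_win {o y m : Λ} (h : S.Win y m) :
    S.D o m = S.D o y + (if S.Pp o y m then 0 else 1) - (if S.Pq o y m then 1 else 0) := by
  have h1 := S.E_win_left (o := o) h
  have h2 := S.E_win_right (o := o) h
  rw [D, D]
  by_cases hp : S.Pp o y m <;> by_cases hq : S.Pq o y m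
  · rw [if_pos hp, if_pos hq, h1.1 hp, h2.1 hq]
    omega
  · rw [if_pos hp, if_neg hq, h1.1 hp, h2.2 hq]
    omega
  · rw [if_neg hp, if_pos hq, h1.2 hp, h2.1 hq]
    omega
  · rw [if_neg hp, if_neg hq, h1.2 hp, h2.2 hq]
    omega

theorem D_down {o y m : Λ} (h : S.Win y m) :
    S.D o m + 1 = S.D o y ↔ S.Pp o y m ∧ S.Pq o y m := by
  rw [S.D_win h]
  by_cases hp : S.Pp o y m <;> by_cases hq : S.Pq o y m <;> simp only [hp, hq, if_true, if_false]
    <;> constructor <;> intro h' <;> first | omega | tauto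

theorem D_hor {o y m : Λ} (h : S.Win y m) :
    S.D o m = S.D o y ↔ (S.Pp o y m ∧ ¬ S.Pq o y m) ∨ (¬ S.Pp o y m ∧ S.Pq o y m) := by
  rw [S.D_win h]
  by_cases hp : S.Pp o y m <;> by_cases hq : S.Pq o y m <;> simp only [hp, hq, if_true, if_false]
    <;> constructor <;> intro h' <;> first | omega | tauto

theorem D_step {o y m : Λ} (h : S.Win y m) : S.D o m ≤ S.D o y + 1 := by
  rw [S.D_win h]
  by_cases hp : S.Pp o y m <;> by_cases hq : S.Pq o y m <;> simp only [hp, hq, if_true, if_false]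
    <;> omega

/-- The lower end of the interval of the down-neighbours. -/
noncomputable def lo (o y : Λ) : Λ := S.sh (S.E o y) o ⊔ S.sh 1 y

/-- The upper end of the interval of the down-neighbours. -/
noncomputable def hi (o y : Λ) : Λ := y ⊓ S.sh (1 - S.E y o) o

theorem lo_gt (o y : Λ) : S.sh 1 y < S.lo o y := by
  refine lt_of_le_of_ne le_sup_right fun h => ?_
  have h1 : S.sh (S.E o y) o ≤ S.sh 1 y := by
    rw [h]
    exact le_sup_left
  rw [← S.E_le_iff, S.E_sh_right] at h1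
  omega

theorem hi_lt (o y : Λ) : S.hi o y < y := by
  refine lt_of_le_of_ne inf_le_left fun h => ?_
  have h1 : y ≤ S.sh (1 - S.E y o) o :=
    h.ge.trans (show S.hi o y ≤ S.sh (1 - S.E y o) o from inf_le_right)
  have h2 : S.sh (S.E y o - 1) y ≤ o := by
    rw [S.sh_le_iff', neg_sub]
    exact h1
  rw [← S.E_le_iff] at h2
  omega

theorem lo_le_hi {o y : Λ} (h : 1 ≤ S.D o y) : S.lo o y ≤ S.hi o y := by
  refine sup_le (le_inf (S.E_spec o y) (S.sh_anti ?_ o)) (le_inf (S.sh_one y) ?_)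
  · rw [D] at h
    omega
  · have h1 := S.E_spec y o
    rw [S.sh_le_iff'] at h1
    have h2 := S.sh_mono 1 _ _ h1
    rw [← S.sh_add] at h2
    have h3 : 1 + -S.E y o = 1 - S.E y o := by omega
    rwa [h3] at h2

theorem win_lo {o y : Λ} (h : 1 ≤ S.D o y) : S.Win y (S.lo o y) :=
  ⟨S.lo_gt o y, (S.lo_le_hi h).trans_lt (S.hi_lt o y)⟩

theorem win_hi {o y : Λ} (h : 1 ≤ S.D o y) : S.Win y (S.hi o y) :=
  ⟨(S.lo_gt o y).trans_le (S.lo_le_hi h), S.hi_lt o y⟩

theorem pp_iff {o y m : Λ} (h : S.Win y m) : S.Pp o y m ↔ S.lo o y ≤ m :=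
  ⟨fun hp => sup_le hp h.1.le, fun hp => le_sup_left.trans hp⟩

theorem pq_iff {o y m : Λ} (h : S.Win y m) : S.Pq o y m ↔ m ≤ S.hi o y :=
  ⟨fun hq => (le_inf h.2.le hq : m ≤ y ⊓ S.sh (1 - S.E y o) o), fun hq =>
    hq.trans (show S.hi o y ≤ S.sh (1 - S.E y o) o from inf_le_right)⟩

theorem pp_hi {o y : Λ} (h : 1 ≤ S.D o y) : S.Pp o y (S.hi o y) :=
  (S.pp_iff (S.win_hi h)).2 (S.lo_le_hi h)

theorem pq_lo {o y : Λ} (h : 1 ≤ S.D o y) : S.Pq o y (S.lo o y) :=
  (S.pq_iff (S.win_lo h)).2 (S.lo_le_hi h)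

theorem down_lo {o y : Λ} (h : 1 ≤ S.D o y) : S.D o (S.lo o y) + 1 = S.D o y :=
  (S.D_down (S.win_lo h)).2 ⟨(S.pp_iff (S.win_lo h)).2 le_rfl, S.pq_lo h⟩

theorem down_hi {o y : Λ} (h : 1 ≤ S.D o y) : S.D o (S.hi o y) + 1 = S.D o y :=
  (S.D_down (S.win_hi h)).2 ⟨S.pp_hi h, (S.pq_iff (S.win_hi h)).2 le_rfl⟩

/-- A down-neighbour is one of the two ends. -/
theorem down_cases {o y m : Λ} (hw : S.Win y m) (h : S.D o m + 1 = S.D o y) :
    m = S.lo o y ∨ m = S.hi o y := by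
  have h1 : 1 ≤ S.D o y := by
    have := S.D_nonneg o m
    omega
  obtain ⟨hp, hq⟩ := (S.D_down hw).1 h
  rw [S.pp_iff hw] at hp
  rw [S.pq_iff hw] at hq
  rcases hw.vol with hv | hv
  · right
    refine S.eq_of_vol hq ?_
    rcases (S.win_hi h1).vol with h2 | h2 <;> omega
  · left
    refine (S.eq_of_vol hp ?_).symm
    rcases (S.win_lo h1).vol with h2 | h2 <;> omega

/-- Three lattices `π y < m' < m < y` are not all at the same distance. -/
theorem no_hor {o y m m' : Λ} (h1 : 1 ≤ S.D o y) (hw : S.Win y m) (hw' : S.Win y m')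
    (hlt : m' < m) (h : S.D o m = S.D o y) (h' : S.D o m' = S.D o y) : False := by
  have hv := hw.vol
  have hv' := hw'.vol
  have hvl := S.vol_lt _ _ hlt
  have e1 : S.vol m = S.vol y + 1 := by omega
  have e2 : S.vol m' = S.vol y + 2 := by omega
  have hpm' : ¬ S.Pp o y m' := by
    intro hp
    rcases (S.D_hor hw').1 h' with h3 | h3
    · rw [S.pp_iff hw'] at hp
      have h4 : S.lo o y = m' := by
        refine S.eq_of_vol hp ?_
        rcases (S.win_lo h1).vol with h5 | h5 <;> omega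
      refine h3.2 ?_
      rw [← h4]
      exact S.pq_lo h1
    · exact h3.1 hp
  have hqm' : S.Pq o y m' := by
    rcases (S.D_hor hw').1 h' with h3 | h3
    · exact absurd h3.1 hpm'
    · exact h3.2
  have hqm : ¬ S.Pq o y m := by
    intro hq
    rcases (S.D_hor hw).1 h with h3 | h3
    · exact h3.2 hq
    · rw [S.pq_iff hw] at hq
      have h4 : m = S.hi o y := by
        refine S.eq_of_vol hq ?_
        rcases (S.win_hi h1).vol with h5 | h5 <;> omega
      refine h3.1 ?_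
      rw [h4]
      exact S.pp_hi h1
  have hpm : S.Pp o y m := by
    rcases (S.D_hor hw).1 h with h3 | h3
    · exact h3.1
    · exact absurd h3.2 hqm
  rw [S.pp_iff hw] at hpm
  rw [S.pp_iff hw'] at hpm'
  rw [S.pq_iff hw'] at hqm'
  have h5 : m' ⊔ S.lo o y ≤ m := sup_le hlt.le hpm
  have h6 : m' < m' ⊔ S.lo o y := by
    refine lt_of_le_of_ne le_sup_left fun h => hpm' ?_
    rw [h]
    exact le_sup_right
  have h7 := S.vol_lt _ _ h6
  have h8 : m' ⊔ S.lo o y = m := by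
    refine S.eq_of_vol h5 ?_
    omega
  refine hqm ?_
  rw [S.pq_iff hw, ← h8]
  exact sup_le hqm' (S.lo_le_hi h1)

end GS

end Pool.Agent.B3
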