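import Mathlib
import Pool.Agent.Lib.MP_8f66f0_al_B3.Abs
import Pool.Agent.Lib.MP_8f66f0_al_Cx.Defs

/-! The building of `GL_3` as a 2-complex with the metric conditions (abstract version). -/

set_option autoImplicit false

namespace Pool.Agent.B3

open Pool.Agent.Cx2

/-- The distance in a graph from a function with the properties of the distance. -/
theorem dist_aux {W : Type} (Γ : SimpleGraph W) (o : W) (f : W → ℕ) (h0 : ∀ v, f v = 0 → v = o)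
    (h0' : f o = 0) (h1 : ∀ u v, Γ.Adj u v → f v ≤ f u + 1)
    (h2 : ∀ v, f v ≠ 0 → ∃ u, Γ.Adj u v ∧ f u + 1 = f v) (v : W) :
    Γ.Reachable o v ∧ Γ.dist o v = f v := by
  have key : ∀ (n : ℕ) (v : W), f v = n → ∃ p : Γ.Walk o v, p.length = n := by
    intro n
    induction n with
    | zero =>
      intro v hv
      obtain rfl := h0 v hv
      exact ⟨SimpleGraph.Walk.nil, rfl⟩
    | succ n ih =>
      intro v hv
      obtain ⟨u, hu, hfu⟩ := h2 v (by omega)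
      obtain ⟨p, hp⟩ := ih u (by omega)
      exact ⟨p.concat hu, by rw [SimpleGraph.Walk.length_concat, hp]⟩
  have low : ∀ (u w : W) (p : Γ.Walk u w), f w ≤ f u + p.length := by
    intro u w p
    induction p with
    | nil => simp
    | cons h p ih =>
      have := h1 _ _ h
      rw [SimpleGraph.Walk.length_cons]
      omega
  obtain ⟨p, hp⟩ := key (f v) v rfl
  have hr : Γ.Reachable o v := ⟨p⟩
  refine ⟨hr, le_antisymm ?_ ?_⟩
  · rw [← hp]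
    exact SimpleGraph.dist_le p
  · obtain ⟨q, hq⟩ := hr.exists_walk_length_eq_dist
    have := low _ _ q
    omega

variable {G Λ : Type} [Group G] [Lattice Λ] [MulAction G Λ] (S : GS G Λ)

namespace GS

/-- The vertices: every class of lattices modulo powers of `π` has exactly one representative with
`vol = 0`, `1`, `2`. -/
def V : Type := {x : Λ // 0 ≤ S.vol x ∧ S.vol x < 3}

instance : MulAction G S.V where
  smul g x := ⟨g • x.1, by rw [S.smul_vol]; exact x.2⟩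
  one_smul x := Subtype.ext (one_smul G x.1)
  mul_smul g h x := Subtype.ext (mul_smul g h x.1)

theorem smul_val (g : G) (x : S.V) : (g • x).1 = g • x.1 := rfl

/-- The vertex of a lattice. -/
def nm (m : Λ) : S.V := ⟨S.sh (-(S.vol m / 3)) m, by rw [S.vol_sh]; omega⟩

theorem nm_spec (m : Λ) : ∃ k : ℤ, S.sh k (S.nm m).1 = m := ⟨S.vol m / 3, S.sh_neg' _ _⟩

variable {S}

theorem rep_unique {x y : S.V} {a b : ℤ} (h : S.sh a x.1 = S.sh b y.1) : x = y := by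
  have h1 := congrArg S.vol h
  rw [S.vol_sh, S.vol_sh] at h1
  have h2 := x.2
  have h3 := y.2
  have hab : a = b := by omega
  subst hab
  have h4 := congrArg (S.sh (-a)) h
  rw [S.sh_neg, S.sh_neg] at h4
  exact Subtype.ext h4

theorem nm_eq {x : S.V} {a : ℤ} {m : Λ} (h : S.sh a x.1 = m) : x = S.nm m := by
  obtain ⟨k, hk⟩ := S.nm_spec m
  exact rep_unique (h.trans hk.symm)

variable (S) in
/-- Adjacency. -/
def Ad (x y : S.V) : Prop := ∃ k : ℤ, S.Win x.1 (S.sh k y.1)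

theorem Ad.symm {x y : S.V} (h : S.Ad x y) : S.Ad y x := by
  obtain ⟨k, h1, h2⟩ := h
  refine ⟨1 - k, ?_, ?_⟩
  · rw [S.sh_lt_iff'] at h2
    have h3 := (S.sh_lt_iff 1 _ _).2 h2
    rw [← S.sh_add] at h3
    exact h3
  · have h3 := (S.sh_lt_iff (-k) _ _).2 h1
    rw [S.sh_neg, ← S.sh_add] at h3
    have h4 : -k + 1 = 1 - k := by omega
    rwa [h4] at h3

theorem Ad.vol_ne {x y : S.V} (h : S.Ad x y) : S.vol x.1 ≠ S.vol y.1 := by
  obtain ⟨k, hk⟩ := h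
  have h1 := hk.vol
  rw [S.vol_sh] at h1
  omega

theorem Ad.ne {x y : S.V} (h : S.Ad x y) : x ≠ y := fun e => h.vol_ne (by rw [e])

theorem smul_lt (S : GS G Λ) (g : G) {x y : Λ} (h : x < y) : g • x < g • y := by
  refine lt_of_le_of_ne (S.smul_le g x y h.le) fun e => h.ne ?_
  exact smul_left_cancel g e

theorem Ad.smul {x y : S.V} (h : S.Ad x y) (g : G) : S.Ad (g • x) (g • y) := by
  obtain ⟨k, h1, h2⟩ := h
  refine ⟨k, ?_, ?_⟩
  · rw [smul_val, smul_val, ← S.smul_sh, ← S.smul_sh]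
    exact S.smul_lt g h1
  · rw [smul_val, smul_val, ← S.smul_sh]
    exact S.smul_lt g h2

theorem Ad.D_le {x y : S.V} (h : S.Ad x y) (o : Λ) : S.D o y.1 ≤ S.D o x.1 + 1 := by
  obtain ⟨k, hk⟩ := h
  rw [← S.D_sh k]
  exact S.D_step hk

variable (S) in
/-- The graph. -/
def gr : SimpleGraph S.V where
  Adj := S.Ad
  symm := ⟨fun _ _ h => h.symm⟩
  loopless := ⟨fun _ h => h.ne rfl⟩

theorem eq_of_D' {o v : S.V} (h : S.D o.1 v.1 = 0) : v = o := by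
  refine rep_unique (a := 0) (b := S.E o.1 v.1) ?_
  rw [S.sh_zero]
  exact S.eq_of_D h

theorem ad_nm {v : S.V} {m : Λ} (h : S.Win v.1 m) : S.Ad v (S.nm m) := by
  obtain ⟨k, hk⟩ := S.nm_spec m
  exact ⟨k, by rwa [hk]⟩

theorem D_nm (o m : Λ) : S.D o (S.nm m).1 = S.D o m := by
  obtain ⟨k, hk⟩ := S.nm_spec m
  rw [← S.D_sh k, hk]

theorem gr_dist (o v : S.V) : S.gr.Reachable o v ∧ S.gr.dist o v = (S.D o.1 v.1).toNat := by
  refine dist_aux S.gr o (fun v => (S.D o.1 v.1).toNat) ?_ ?_ ?_ ?_ v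
  · intro v hv
    have h1 := S.D_nonneg o.1 v.1
    exact eq_of_D' (by omega)
  · rw [S.D_self]
    rfl
  · intro u v h
    have h1 := Ad.D_le h o.1
    have h2 := S.D_nonneg o.1 v.1
    have h3 := S.D_nonneg o.1 u.1
    change (S.D o.1 v.1).toNat ≤ (S.D o.1 u.1).toNat + 1
    omega
  · intro v hv
    change (S.D o.1 v.1).toNat ≠ 0 at hv
    have h1 : 1 ≤ S.D o.1 v.1 := by omega
    refine ⟨S.nm (S.lo o.1 v.1), (ad_nm (S.win_lo h1)).symm, ?_⟩
    have h2 := S.down_lo h1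
    change (S.D o.1 (S.nm (S.lo o.1 v.1)).1).toNat + 1 = (S.D o.1 v.1).toNat
    rw [D_nm]
    omega

theorem dist_eq_iff {o u v : S.V} : S.gr.dist o u = S.gr.dist o v ↔ S.D o.1 u.1 = S.D o.1 v.1 := by
  rw [(gr_dist o u).2, (gr_dist o v).2]
  have h2 := S.D_nonneg o.1 v.1
  have h3 := S.D_nonneg o.1 u.1
  omega

theorem dist_succ_iff {o u v : S.V} :
    S.gr.dist o u + 1 = S.gr.dist o v ↔ S.D o.1 u.1 + 1 = S.D o.1 v.1 := by
  rw [(gr_dist o u).2, (gr_dist o v).2]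
  have h2 := S.D_nonneg o.1 v.1
  have h3 := S.D_nonneg o.1 u.1
  omega

/-! ### The cells -/

variable (S) in
/-- The cells: the triangles. -/
def C : Type := {t : S.V × S.V × S.V // S.vol t.1.1 = 0 ∧ S.vol t.2.1.1 = 1 ∧
  S.vol t.2.2.1 = 2 ∧ S.Ad t.1 t.2.1 ∧ S.Ad t.2.1 t.2.2 ∧ S.Ad t.1 t.2.2}

instance : MulAction G S.C where
  smul g t := ⟨(g • t.1.1, g • t.1.2.1, g • t.1.2.2), by
    refine ⟨?_, ?_, ?_, t.2.2.2.2.1.smul g, t.2.2.2.2.2.1.smul g, t.2.2.2.2.2.2.smul g⟩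
    · rw [smul_val, S.smul_vol]
      exact t.2.1
    · rw [smul_val, S.smul_vol]
      exact t.2.2.1
    · rw [smul_val, S.smul_vol]
      exact t.2.2.2.1⟩
  one_smul t := Subtype.ext (Prod.ext (one_smul G _) (Prod.ext (one_smul G _) (one_smul G _)))
  mul_smul g h t := Subtype.ext (Prod.ext (mul_smul g h _)
    (Prod.ext (mul_smul g h _) (mul_smul g h _)))

variable (S) in
/-- The complex. -/
def cx [Nonempty Λ] : Cx G S.V S.C where
  Γ := S.gr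
  conn := by
    have hne : Nonempty S.V := ⟨S.nm (Classical.arbitrary Λ)⟩
    exact (SimpleGraph.connected_iff _).2 ⟨fun u v => (gr_dist u v).1, hne⟩
  adj_smul g _ _ h := Ad.smul h g
  ori x y := S.Ad x y ∧ S.vol x.1 < S.vol y.1
  ori_or x y h := by
    rcases lt_or_gt_of_ne (Ad.vol_ne h) with h1 | h1
    · exact Or.inl ⟨h, h1⟩
    · exact Or.inr ⟨Ad.symm h, h1⟩
  ori_adj _ _ h := h.1
  ori_anti _ _ h h' := absurd h.2 (not_lt.2 h'.2.le)
  ori_smul g x y h := ⟨h.1.smul g, by rw [smul_val, smul_val, S.smul_vol, S.smul_vol]; exact h.2⟩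
  bv c := c.1.1
  rs c := [c.1.2.1, c.1.2.2]
  bv_smul _ _ := rfl
  rs_smul _ _ := rfl
  bd_adj c := by
    change List.IsChain S.Ad [c.1.1, c.1.2.1, c.1.2.2, c.1.1]
    rw [List.isChain_cons_cons, List.isChain_cons_cons, List.isChain_cons_cons]
    exact ⟨c.2.2.2.2.1, c.2.2.2.2.2.1, c.2.2.2.2.2.2.symm, List.isChain_singleton _⟩

theorem isTri_swap [Nonempty Λ] {c : S.C} {a b m : S.V} (h : S.cx.IsTri c a b m) :
    S.cx.IsTri c a m b := by
  rcases h with ⟨h1, h2⟩ | ⟨h1, h2⟩ | ⟨h1, h2⟩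
  · exact Or.inl ⟨h1, h2.symm⟩
  · exact Or.inr (Or.inr ⟨h1, h2⟩)
  · exact Or.inr (Or.inl ⟨h1, h2⟩)

theorem isTri_rot [Nonempty Λ] {c : S.C} {a b m : S.V} (h : S.cx.IsTri c a b m) :
    S.cx.IsTri c b a m := by
  rcases h with ⟨h1, h2⟩ | ⟨h1, h2⟩ | ⟨h1, h2⟩
  · exact Or.inr (Or.inl ⟨h1, h2⟩)
  · exact Or.inl ⟨h1, h2⟩
  · exact Or.inr (Or.inr ⟨h1, h2.symm⟩)

theorem isTri_val [Nonempty Λ] (c : S.C) : S.cx.IsTri c c.1.1 c.1.2.1 c.1.2.2 :=
  Or.inl ⟨rfl, Or.inl rfl⟩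

theorem tri_vol [Nonempty Λ] {c : S.C} {a b m : S.V} (h : S.cx.IsTri c a b m) :
    S.vol b.1 ≠ S.vol m.1 := by
  have v0 := c.2.1
  have v1 := c.2.2.1
  have v2 := c.2.2.2.1
  have e : ∀ u v : S.V, S.cx.rs c = [u, v] → c.1.2.1 = u ∧ c.1.2.2 = v := by
    intro u v h2
    have h3 : [c.1.2.1, c.1.2.2] = [u, v] := h2
    simpa using h3
  rcases h with ⟨h1, h2 | h2⟩ | ⟨h1, h2 | h2⟩ | ⟨h1, h2 | h2⟩
  all_goals
    obtain ⟨e1, e2⟩ := e _ _ h2
    have h4 : c.1.1 = _ := h1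
    rw [h4] at v0
    rw [e1] at v1
    rw [e2] at v2
    omega

/-- The set of the corners. -/
theorem isTri_iff [Nonempty Λ] {c : S.C} {a b m : S.V} (h : S.cx.IsTri c a b m) :
    ({a, b, m} : Set S.V) = {c.1.1, c.1.2.1, c.1.2.2} := by
  have e : ∀ x y z u v : S.V, S.cx.bv c = x → S.cx.rs c = [u, v] →
      ({x, u, v} : Set S.V) = {c.1.1, c.1.2.1, c.1.2.2} := by
    intro x y z u v h1 h2
    have h3 : [c.1.2.1, c.1.2.2] = [u, v] := h2
    simp only [List.cons.injEq, and_true] at h3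
    obtain ⟨rfl, rfl⟩ := h3
    have h4 : c.1.1 = x := h1
    rw [h4]
  rcases h with ⟨h1, h2 | h2⟩ | ⟨h1, h2 | h2⟩ | ⟨h1, h2 | h2⟩
  · exact e a a a b m h1 h2
  · rw [← e a a a m b h1 h2, Set.pair_comm b m]
  · rw [← e b a a a m h1 h2, Set.insert_comm]
  · rw [← e b a a m a h1 h2, Set.insert_comm, Set.pair_comm a m]
  · rw [← e m a a a b h1 h2, Set.pair_comm b m, Set.insert_comm]
  · rw [← e m a a b a h1 h2, Set.insert_comm a b, Set.pair_comm a m, Set.insert_comm b m]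

theorem cell_ext {c c' : S.C}
    (h : ({c.1.1, c.1.2.1, c.1.2.2} : Set S.V) = {c'.1.1, c'.1.2.1, c'.1.2.2}) : c = c' := by
  have h0 : ∀ x ∈ ({c'.1.1, c'.1.2.1, c'.1.2.2} : Set S.V),
      (S.vol x.1 = 0 → x = c'.1.1) ∧ (S.vol x.1 = 1 → x = c'.1.2.1) ∧
        (S.vol x.1 = 2 → x = c'.1.2.2) := by
    rintro x (rfl | rfl | rfl)
    · have := c'.2.1
      exact ⟨fun _ => rfl, fun h => by omega, fun h => by omega⟩
    · have := c'.2.2.1
      exact ⟨fun h => by omega, fun _ => rfl, fun h => by omega⟩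
    · have := c'.2.2.2.1
      exact ⟨fun h => by omega, fun h => by omega, fun _ => rfl⟩
  rw [← h] at h0
  refine Subtype.ext (Prod.ext ?_ (Prod.ext ?_ ?_))
  · exact (h0 c.1.1 (by simp)).1 c.2.1
  · exact (h0 c.1.2.1 (by simp)).2.1 c.2.2.1
  · exact (h0 c.1.2.2 (by simp)).2.2 c.2.2.2.1

theorem tri_unique [Nonempty Λ] {c c' : S.C} {a b m : S.V} (h : S.cx.IsTri c a b m)
    (h' : S.cx.IsTri c' a b m) : c = c' :=
  cell_ext ((isTri_iff h).symm.trans (isTri_iff h'))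

theorem tri_exists [Nonempty Λ] {a b m : S.V} (h1 : S.Ad a b) (h2 : S.Ad b m) (h3 : S.Ad a m) :
    ∃ c : S.C, S.cx.IsTri c a b m := by
  have va := a.2
  have vb := b.2
  have vm := m.2
  have n1 := h1.vol_ne
  have n2 := h2.vol_ne
  have n3 := h3.vol_ne
  have hcase : (S.vol a.1 = 0 ∧ S.vol b.1 = 1 ∧ S.vol m.1 = 2) ∨
      (S.vol a.1 = 0 ∧ S.vol m.1 = 1 ∧ S.vol b.1 = 2) ∨
      (S.vol b.1 = 0 ∧ S.vol a.1 = 1 ∧ S.vol m.1 = 2) ∨
      (S.vol b.1 = 0 ∧ S.vol m.1 = 1 ∧ S.vol a.1 = 2) ∨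
      (S.vol m.1 = 0 ∧ S.vol a.1 = 1 ∧ S.vol b.1 = 2) ∨
      (S.vol m.1 = 0 ∧ S.vol b.1 = 1 ∧ S.vol a.1 = 2) := by omega
  rcases hcase with h | h | h | h | h | h
  · exact ⟨⟨(a, b, m), h.1, h.2.1, h.2.2, h1, h2, h3⟩, Or.inl ⟨rfl, Or.inl rfl⟩⟩
  · exact ⟨⟨(a, m, b), h.1, h.2.1, h.2.2, h3, h2.symm, h1⟩, Or.inl ⟨rfl, Or.inr rfl⟩⟩
  · exact ⟨⟨(b, a, m), h.1, h.2.1, h.2.2, h1.symm, h3, h2⟩,
      Or.inr (Or.inl ⟨rfl, Or.inl rfl⟩)⟩
  · exact ⟨⟨(b, m, a), h.1, h.2.1, h.2.2, h2, h3.symm, h1.symm⟩,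
      Or.inr (Or.inl ⟨rfl, Or.inr rfl⟩)⟩
  · exact ⟨⟨(m, a, b), h.1, h.2.1, h.2.2, h3.symm, h1, h2.symm⟩,
      Or.inr (Or.inr ⟨rfl, Or.inl rfl⟩)⟩
  · exact ⟨⟨(m, b, a), h.1, h.2.1, h.2.2, h2.symm, h1.symm, h3.symm⟩,
      Or.inr (Or.inr ⟨rfl, Or.inr rfl⟩)⟩

/-! ### The metric conditions -/

theorem dn_iff [Nonempty Λ] {o v u : S.V} :
    S.cx.Dn o v u ↔ S.Ad v u ∧ S.D o.1 u.1 + 1 = S.D o.1 v.1 :=
  and_congr Iff.rfl dist_succ_iff

theorem dn_cases [Nonempty Λ] {o v u : S.V} (h : S.cx.Dn o v u) :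
    u = S.nm (S.lo o.1 v.1) ∨ u = S.nm (S.hi o.1 v.1) := by
  obtain ⟨⟨k, hk⟩, h2⟩ := dn_iff.1 h
  rw [← S.D_sh k o.1 u.1] at h2
  rcases S.down_cases hk h2 with h3 | h3
  · exact Or.inl (nm_eq h3)
  · exact Or.inr (nm_eq h3)

theorem dn_pos [Nonempty Λ] {o v u : S.V} (h : S.cx.Dn o v u) : 1 ≤ S.D o.1 v.1 := by
  have h1 := (dn_iff.1 h).2
  have h2 := S.D_nonneg o.1 u.1
  omega

theorem dn_lo [Nonempty Λ] {o v : S.V} (h : 1 ≤ S.D o.1 v.1) :
    S.cx.Dn o v (S.nm (S.lo o.1 v.1)) :=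
  dn_iff.2 ⟨ad_nm (S.win_lo h), by rw [D_nm]; exact S.down_lo h⟩

theorem dn_hi [Nonempty Λ] {o v : S.V} (h : 1 ≤ S.D o.1 v.1) :
    S.cx.Dn o v (S.nm (S.hi o.1 v.1)) :=
  dn_iff.2 ⟨ad_nm (S.win_hi h), by rw [D_nm]; exact S.down_hi h⟩

/-- Adjacency of the vertices of two lattices in a window. -/
theorem ad_win {y m m' : Λ} (hw : S.Win y m) (hw' : S.Win y m') (h : m' < m) :
    S.Ad (S.nm m) (S.nm m') := by
  obtain ⟨k, hk⟩ := S.nm_spec m
  obtain ⟨l, hl⟩ := S.nm_spec m'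
  refine ⟨l - k, ?_, ?_⟩
  · rw [← S.sh_lt_iff k, ← S.sh_add, ← S.sh_add, add_comm k 1, S.sh_add 1 k, hk]
    have e : k + (l - k) = l := by omega
    rw [e, hl]
    exact ((S.sh_lt_iff 1 _ _).2 hw.2).trans hw'.1
  · rw [← S.sh_lt_iff k, ← S.sh_add, hk]
    have e : k + (l - k) = l := by omega
    rw [e, hl]
    exact h

theorem dn_ad [Nonempty Λ] {o v u u' : S.V} (h : S.cx.Dn o v u) (h' : S.cx.Dn o v u')
    (hne : u ≠ u') : S.Ad u u' := by
  have h1 := dn_pos h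
  have hne' : S.nm (S.lo o.1 v.1) ≠ S.nm (S.hi o.1 v.1) := by
    intro e
    rcases dn_cases h with h2 | h2 <;> rcases dn_cases h' with h3 | h3
    · exact hne (h2.trans h3.symm)
    · exact hne (h2.trans (e.trans h3.symm))
    · exact hne (h2.trans (e.symm.trans h3.symm))
    · exact hne (h2.trans h3.symm)
  have hlt : S.lo o.1 v.1 < S.hi o.1 v.1 := by
    refine lt_of_le_of_ne (S.lo_le_hi h1) fun e => hne' (by rw [e])
  have h4 := ad_win (S.win_hi h1) (S.win_lo h1) hlt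
  rcases dn_cases h with h2 | h2 <;> rcases dn_cases h' with h3 | h3
  · exact absurd (h2.trans h3.symm) hne
  · rw [h2, h3]
    exact h4.symm
  · rw [h2, h3]
    exact h4
  · exact absurd (h2.trans h3.symm) hne

/-- A down-neighbour of one end of a horizontal edge. -/
theorem hor_exists [Nonempty Λ] {o u u' : S.V} (h : S.Ad u u')
    (hd : S.D o.1 u.1 = S.D o.1 u'.1) : ∃ x, S.cx.Dn o u x ∧ S.cx.Dn o u' x := by
  have h1 : 1 ≤ S.D o.1 u.1 := by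
    by_contra hlt
    have h2 := S.D_nonneg o.1 u.1
    have h3 := S.D_nonneg o.1 u'.1
    exact h.ne ((eq_of_D' (by omega : S.D o.1 u.1 = 0)).trans
      (eq_of_D' (by omega : S.D o.1 u'.1 = 0)).symm)
  obtain ⟨k, hk⟩ := h
  have hu' : u' = S.nm (S.sh k u'.1) := nm_eq rfl
  have hD : S.D o.1 (S.sh k u'.1) = S.D o.1 u.1 := by
    rw [S.D_sh]
    exact hd.symm
  rcases (S.D_hor hk).1 hD with ⟨hp, hq⟩ | ⟨hp, hq⟩
  · refine ⟨S.nm (S.lo o.1 u.1), dn_lo h1, dn_iff.2 ⟨?_, ?_⟩⟩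
    · have hlt : S.lo o.1 u.1 < S.sh k u'.1 := by
        refine lt_of_le_of_ne ((S.pp_iff hk).1 hp) fun e => hq ?_
        rw [← e]
        exact S.pq_lo h1
      have h4 := ad_win hk (S.win_lo h1) hlt
      rwa [← hu'] at h4
    · rw [D_nm, ← hd]
      exact S.down_lo h1
  · refine ⟨S.nm (S.hi o.1 u.1), dn_hi h1, dn_iff.2 ⟨?_, ?_⟩⟩
    · have hlt : S.sh k u'.1 < S.hi o.1 u.1 := by
        refine lt_of_le_of_ne ((S.pq_iff hk).1 hq) fun e => hp ?_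
        rw [e]
        exact S.pp_hi h1
      have h4 := ad_win (S.win_hi h1) hk hlt
      rw [← hu'] at h4
      exact h4.symm
    · rw [D_nm, ← hd]
      exact S.down_hi h1

/-- Three adjacent vertices are not all at the same distance. -/
theorem no_eq {o a b m : S.V} (h1 : S.Ad a b) (h2 : S.Ad b m) (h3 : S.Ad a m)
    (hb : S.D o.1 b.1 = S.D o.1 a.1) (hm : S.D o.1 m.1 = S.D o.1 a.1) : False := by
  have hpos : 1 ≤ S.D o.1 a.1 := by
    by_contra hlt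
    have e1 := S.D_nonneg o.1 a.1
    exact h1.ne ((eq_of_D' (by omega : S.D o.1 a.1 = 0)).trans
      (eq_of_D' (by omega : S.D o.1 b.1 = 0)).symm)
  have key : ∀ b m : S.V, S.Ad b m → S.D o.1 b.1 = S.D o.1 a.1 → S.D o.1 m.1 = S.D o.1 a.1 →
      ∀ k l : ℤ, S.Win a.1 (S.sh k b.1) → S.Win a.1 (S.sh l m.1) →
      S.vol (S.sh k b.1) = S.vol a.1 + 1 → S.vol (S.sh l m.1) = S.vol a.1 + 2 → False := by
    intro b m hbm hb hm k l hk hl vk vl
    obtain ⟨j, hj⟩ := hbm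
    have vj := hj.vol
    rw [S.vol_sh] at vk vl vj
    have hj2 : j = l - k := by omega
    have hlt : S.sh l m.1 < S.sh k b.1 := by
      have h5 := (S.sh_lt_iff k _ _).2 hj.2
      rw [← S.sh_add, hj2] at h5
      have e : k + (l - k) = l := by omega
      rwa [e] at h5
    exact S.no_hor hpos hk hl hlt (by rw [S.D_sh, hb]) (by rw [S.D_sh, hm])
  obtain ⟨k, hk⟩ := h1
  obtain ⟨l, hl⟩ := h3
  have n2 := h2.vol_ne
  have vk := hk.vol
  have vl := hl.vol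
  have vb := b.2
  have vm := m.2
  have vk' := vk
  have vl' := vl
  rw [S.vol_sh] at vk' vl'
  rcases vk with vk | vk <;> rcases vl with vl | vl
  · rw [S.vol_sh] at vk vl
    omega
  · exact key b m h2 hb hm k l hk hl vk vl
  · exact key m b h2.symm hm hb l k hl hk vl vk
  · rw [S.vol_sh] at vk vl
    omega

theorem met [Nonempty Λ] : S.cx.Met where
  two := by
    intro o v u u' u'' h h' h''
    rcases dn_cases h with h1 | h1 <;> rcases dn_cases h' with h2 | h2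
    · exact Or.inl (h1.trans h2.symm)
    · rcases dn_cases h'' with h3 | h3
      · exact Or.inr (Or.inl (h1.trans h3.symm))
      · exact Or.inr (Or.inr (h2.trans h3.symm))
    · rcases dn_cases h'' with h3 | h3
      · exact Or.inr (Or.inr (h2.trans h3.symm))
      · exact Or.inr (Or.inl (h1.trans h3.symm))
    · exact Or.inl (h1.trans h2.symm)
  top := by
    intro o v u u' h h' hne
    obtain ⟨c, hc⟩ := tri_exists (dn_iff.1 h).1 (dn_ad h h' hne) (dn_iff.1 h').1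
    exact ⟨c, Or.inl ⟨hc, h, h', hne⟩⟩
  top_uniq := by
    have hsq : ∀ (o v u u' : S.V) (c : S.C), S.cx.Top o c v u u' → S.cx.PA o c v u u' := by
      rintro o v u u' c (h | ⟨x, h, _⟩)
      · exact h
      · exfalso
        have h2 : (S.cx.rs c).length = 2 := rfl
        rcases h with ⟨_, h | h⟩ | ⟨_, h | h⟩ | ⟨_, h | h⟩ | ⟨_, h | h⟩ <;>
          · rw [h] at h2
            simp at h2
    intro o v u u' w w' c c' h h'
    obtain ⟨t, d1, d2, hne⟩ := hsq _ _ _ _ _ h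
    obtain ⟨t', d1', d2', hne'⟩ := hsq _ _ _ _ _ h'
    have e : (u = w ∧ u' = w') ∨ (u = w' ∧ u' = w) := by
      rcases dn_cases d1 with h1 | h1 <;> rcases dn_cases d2 with h2 | h2 <;>
        rcases dn_cases d1' with h3 | h3 <;> rcases dn_cases d2' with h4 | h4 <;>
        first
          | exact absurd (h1.trans h2.symm) hne
          | exact absurd (h3.trans h4.symm) hne'
          | exact Or.inl ⟨h1.trans h3.symm, h2.trans h4.symm⟩
          | exact Or.inr ⟨h1.trans h4.symm, h2.trans h3.symm⟩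
    rcases e with ⟨rfl, rfl⟩ | ⟨rfl, rfl⟩
    · exact tri_unique t t'
    · exact tri_unique t (isTri_swap t')
  hor := by
    intro o u u' h hd
    obtain ⟨x, h1, h2⟩ := hor_exists (S := S) h (dist_eq_iff.1 hd)
    obtain ⟨c, hc⟩ := tri_exists (dn_iff.1 h1).1.symm h (dn_iff.1 h2).1.symm
    exact ⟨c, x, hc, h1, h2, Ad.ne h⟩
  hor_uniq := by
    rintro o u u' x x' c c' ⟨t, d1, d2, hne⟩ ⟨t', d1', d2', _⟩
    have hxx : x = x' := by
      by_contra hxx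
      have h1 := (dn_ad d1 d1' hxx).vol_ne
      have a1 := (dn_iff.1 d1).1.vol_ne
      have a2 := (dn_iff.1 d2).1.vol_ne
      have a3 := (dn_iff.1 d1').1.vol_ne
      have a4 := (dn_iff.1 d2').1.vol_ne
      have a5 : S.vol u.1 ≠ S.vol u'.1 := tri_vol t
      have b1 := x.2
      have b2 := x'.2
      have b3 := u.2
      have b4 := u'.2
      omega
    subst hxx
    exact tri_unique t t'
  pat := by
    intro o c
    have t := isTri_val c
    obtain ⟨-, -, -, h1, h2, h3⟩ := c.2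
    have e1 := Ad.D_le h1 o.1
    have e2 := Ad.D_le h2 o.1
    have e3 := Ad.D_le h3 o.1
    have e4 := Ad.D_le h1.symm o.1
    have e5 := Ad.D_le h2.symm o.1
    have e6 := Ad.D_le h3.symm o.1
    have hno : ¬ (S.D o.1 c.1.2.1.1 = S.D o.1 c.1.1.1 ∧ S.D o.1 c.1.2.2.1 = S.D o.1 c.1.1.1) :=
      fun h => no_eq h1 h2 h3 h.1 h.2
    have hpa : ∀ a b m : S.V, S.Ad a b → S.Ad b m → S.Ad a m → S.cx.IsTri c a b m →
        S.D o.1 b.1 + 1 = S.D o.1 a.1 → S.D o.1 m.1 + 1 = S.D o.1 a.1 →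
        ∃ v u u', S.cx.Top o c v u u' := fun a b m k1 k2 k3 t k4 k5 =>
      ⟨a, b, m, Or.inl ⟨t, dn_iff.2 ⟨k1, k4⟩, dn_iff.2 ⟨k3, k5⟩, k2.ne⟩⟩
    have hpb : ∀ a b m : S.V, S.Ad a b → S.Ad b m → S.Ad a m → S.cx.IsTri c a b m →
        S.D o.1 a.1 + 1 = S.D o.1 b.1 → S.D o.1 a.1 + 1 = S.D o.1 m.1 →
        ∃ x u u', S.cx.PB o c x u u' := fun a b m k1 k2 k3 t k4 k5 =>
      ⟨a, b, m, t, dn_iff.2 ⟨k1.symm, k4⟩, dn_iff.2 ⟨k3.symm, k5⟩, k2.ne⟩
    have hcase : (S.D o.1 c.1.2.1.1 + 1 = S.D o.1 c.1.1.1 ∧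
          S.D o.1 c.1.2.2.1 + 1 = S.D o.1 c.1.1.1) ∨
        (S.D o.1 c.1.1.1 + 1 = S.D o.1 c.1.2.1.1 ∧
          S.D o.1 c.1.2.2.1 + 1 = S.D o.1 c.1.2.1.1) ∨
        (S.D o.1 c.1.1.1 + 1 = S.D o.1 c.1.2.2.1 ∧
          S.D o.1 c.1.2.1.1 + 1 = S.D o.1 c.1.2.2.1) ∨
        (S.D o.1 c.1.1.1 + 1 = S.D o.1 c.1.2.1.1 ∧
          S.D o.1 c.1.1.1 + 1 = S.D o.1 c.1.2.2.1) ∨
        (S.D o.1 c.1.2.1.1 + 1 = S.D o.1 c.1.1.1 ∧
          S.D o.1 c.1.2.1.1 + 1 = S.D o.1 c.1.2.2.1) ∨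
        (S.D o.1 c.1.2.2.1 + 1 = S.D o.1 c.1.1.1 ∧
          S.D o.1 c.1.2.2.1 + 1 = S.D o.1 c.1.2.1.1) := by omega
    rcases hcase with h | h | h | h | h | h
    · exact Or.inl (hpa _ _ _ h1 h2 h3 t h.1 h.2)
    · exact Or.inl (hpa _ _ _ h1.symm h3 h2 (isTri_rot t) h.1 h.2)
    · exact Or.inl (hpa _ _ _ h3.symm h1 h2.symm (isTri_rot (isTri_swap t)) h.1 h.2)
    · exact Or.inr (hpb _ _ _ h1 h2 h3 t h.1 h.2)
    · exact Or.inr (hpb _ _ _ h1.symm h3 h2 (isTri_rot t) h.1 h.2)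
    · exact Or.inr (hpb _ _ _ h3.symm h1 h2.symm (isTri_rot (isTri_swap t)) h.1 h.2)

end GS

end Pool.Agent.B3
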