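import Mathlib
import Pool.Agent.Lib.MP_8f66f0_al_B3.Abs

/-! Lattices in `F ^ 3` over a principal ideal domain `O` with fraction field `F` and a normalized
valuation. -/

set_option autoImplicit false

namespace Pool.Agent.B3

open Matrix Module

/-- A normalized valuation of `F` with the valuation ring `O`. -/
structure Ord (O F : Type) [CommRing O] [Field F] [Algebra O F] where
  ord : F → ℤ
  π : F
  π_ne : π ≠ 0
  ord_π : ord π = 1
  mul : ∀ x y, x ≠ 0 → y ≠ 0 → ord (x * y) = ord x + ord y
  mem : ∀ x, x ≠ 0 → ((∃ a : O, algebraMap O F a = x) ↔ 0 ≤ ord x)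

section Ord

variable {O F : Type} [CommRing O] [Field F] [Algebra O F] (w : Ord O F)

theorem Ord.one : w.ord 1 = 0 := by
  have h := w.mul 1 1 one_ne_zero one_ne_zero
  rw [mul_one] at h
  omega

theorem Ord.inv {x : F} (hx : x ≠ 0) : w.ord x⁻¹ = - w.ord x := by
  have h := w.mul x x⁻¹ hx (inv_ne_zero hx)
  rw [mul_inv_cancel₀ hx, w.one] at h
  omega

theorem Ord.pow {x : F} (hx : x ≠ 0) (n : ℕ) : w.ord (x ^ n) = n * w.ord x := by
  induction n with
  | zero => rw [pow_zero, w.one, Nat.cast_zero, zero_mul]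
  | succ n ih =>
    rw [pow_succ, w.mul _ _ (pow_ne_zero n hx) hx, ih, Nat.cast_succ, add_mul, one_mul]

theorem Ord.zpow (k : ℤ) : w.ord (w.π ^ k) = k := by
  obtain ⟨n, rfl | rfl⟩ := k.eq_nat_or_neg
  · rw [zpow_natCast, w.pow w.π_ne, w.ord_π, mul_one]
  · rw [_root_.zpow_neg, zpow_natCast, w.inv (pow_ne_zero n w.π_ne), w.pow w.π_ne, w.ord_π, mul_one]

end Ord

section Lat

variable (O F : Type) [CommRing O] [IsDomain O] [IsPrincipalIdealRing O] [Field F] [Algebra O F]
  [IsFractionRing O F]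

/-- Matrices over `F`. -/
abbrev MF : Type := Matrix (Fin 3) (Fin 3) F

/-- The group `GL_3(F)`. -/
abbrev GF : Type := GeneralLinearGroup (Fin 3) F

variable {O F}

/-- The vector over `F`. -/
def toF (c : Fin 3 → O) : Fin 3 → F := fun i => algebraMap O F (c i)

variable (O) in
/-- The lattice `u O ^ 3`. -/
def Lt (u : MF F) : Submodule O (Fin 3 → F) :=
  Submodule.span O (Set.range fun j => u.col j)

theorem mem_Lt {u : MF F} {v : Fin 3 → F} :
    v ∈ Lt O u ↔ ∃ c : Fin 3 → O, u *ᵥ toF c = v := by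
  rw [Lt, Submodule.mem_span_range_iff_exists_fun]
  refine exists_congr fun c => ?_
  have h : (∑ i, c i • u.col i) = u *ᵥ toF c := by
    funext i
    rw [Finset.sum_apply, Matrix.mulVec, dotProduct]
    refine Finset.sum_congr rfl fun j _ => ?_
    rw [Pi.smul_apply, Algebra.smul_def, toF, mul_comm]
    rfl
  rw [h]

theorem Lt_le_iff {u u' : MF F} :
    Lt O u ≤ Lt O u' ↔ ∃ c : Matrix (Fin 3) (Fin 3) O, u = u' * c.map (algebraMap O F) := by
  constructor
  · intro h
    have h1 : ∀ j, ∃ c : Fin 3 → O, u' *ᵥ toF c = u.col j := fun j =>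
      mem_Lt.1 (h (Submodule.subset_span ⟨j, rfl⟩))
    choose c hc using h1
    refine ⟨Matrix.of fun i j => c j i, ?_⟩
    apply Matrix.ext
    intro i j
    have h2 := congrFun (hc j) i
    rw [Matrix.mul_apply]
    exact h2.symm
  · rintro ⟨c, rfl⟩
    rw [Lt, Submodule.span_le]
    rintro _ ⟨j, rfl⟩
    refine mem_Lt.2 ⟨fun i => c i j, ?_⟩
    funext i
    change _ = (u' * c.map (algebraMap O F)) i j
    rw [Matrix.mul_apply]
    rfl

theorem lattice_Lt (u : GF F) : (Lt O (u : MF F)).IsLattice F where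
  fg := Submodule.fg_span (Set.finite_range _)
  span_eq_top := by
    rw [eq_top_iff]
    intro v _
    have h1 : v = (u : MF F) *ᵥ (((u⁻¹ : GF F) : MF F) *ᵥ v) := by
      rw [Matrix.mulVec_mulVec, ← Units.val_mul, mul_inv_cancel, Units.val_one, Matrix.one_mulVec]
    have h2 : v = ∑ j, (((u⁻¹ : GF F) : MF F) *ᵥ v) j • (u : MF F).col j := by
      rw [h1]
      funext i
      rw [Finset.sum_apply, Matrix.mulVec, dotProduct]
      refine Finset.sum_congr rfl fun j _ => ?_
      rw [← h1, Pi.smul_apply, smul_eq_mul, mul_comm]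
      rfl
    rw [h2]
    exact Submodule.sum_mem _ fun j _ => Submodule.smul_mem _ _
      (Submodule.subset_span (Submodule.subset_span ⟨j, rfl⟩))

theorem exists_Lt (L : Submodule O (Fin 3 → F)) (hL : L.IsLattice F) :
    ∃ u : GF F, L = Lt O (u : MF F) := by
  have hfree : Module.Free O L := Submodule.IsLattice.free F L
  have hfin : Module.Finite O L := Submodule.IsLattice.finite F L
  have hr : Module.finrank O L = 3 := by
    have := Submodule.IsLattice.finrank_of_pi F L
    rwa [Fintype.card_fin] at this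
  let b : Basis (Fin 3) O L := Module.finBasisOfFinrankEq O L hr
  let B : Basis (Fin 3) F (Fin 3 → F) := b.extendOfIsLattice F
  let e : Basis (Fin 3) F (Fin 3 → F) := Pi.basisFun F (Fin 3)
  refine ⟨⟨e.toMatrix B, B.toMatrix e, e.toMatrix_mul_toMatrix_flip B,
    B.toMatrix_mul_toMatrix_flip e⟩, ?_⟩
  have hcol : ∀ j, (e.toMatrix B).col j = (b j : Fin 3 → F) := by
    intro j
    funext i
    change e.toMatrix B i j = _
    rw [Basis.toMatrix_apply, Pi.basisFun_repr, Basis.extendOfIsLattice_apply]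
  change L = Submodule.span O (Set.range fun j => (e.toMatrix B).col j)
  simp only [hcol]
  have h1 := congrArg (Submodule.map L.subtype) b.span_eq
  rw [Submodule.map_span, ← Set.range_comp, Submodule.map_subtype_top] at h1
  exact h1.symm

variable (O F) in
/-- The type of all lattices. -/
abbrev LL : Type := {L : Submodule O (Fin 3 → F) // L.IsLattice F}

instance : Lattice (LL O F) :=
  Subtype.lattice
    (fun M N hM hN => by
      have := hM
      have := hN
      exact Submodule.IsLattice.sup F M N)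
    (fun M N hM hN => by
      have := hM
      have := hN
      exact Submodule.IsLattice.inf F M N)

variable (O) in
/-- The linear map of a matrix. -/
def lin (g : MF F) : (Fin 3 → F) →ₗ[O] (Fin 3 → F) := (Matrix.mulVecLin g).restrictScalars O

theorem lin_one : lin O (1 : MF F) = LinearMap.id := by
  apply LinearMap.ext
  intro v
  exact Matrix.one_mulVec v

theorem lin_mul (g h : MF F) : lin O (g * h) = (lin O g).comp (lin O h) := by
  apply LinearMap.ext
  intro v
  exact (Matrix.mulVec_mulVec v g h).symm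

theorem map_Lt (g u : MF F) : (Lt O u).map (lin O g) = Lt O (g * u) := by
  rw [Lt, Lt, Submodule.map_span, ← Set.range_comp]
  congr 2

instance : MulAction (GF F) (LL O F) where
  smul g L := ⟨L.1.map (lin O (g : MF F)), by
    obtain ⟨u, hu⟩ := exists_Lt L.1 L.2
    rw [hu, map_Lt, ← Units.val_mul]
    exact lattice_Lt (g * u)⟩
  one_smul L := Subtype.ext (by
    change L.1.map (lin O ((1 : GF F) : MF F)) = L.1
    rw [Units.val_one, lin_one, Submodule.map_id])
  mul_smul g h L := Subtype.ext (by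
    change L.1.map (lin O ((g * h : GF F) : MF F)) =
      (L.1.map (lin O (h : MF F))).map (lin O (g : MF F))
    rw [Units.val_mul, lin_mul, Submodule.map_comp])

variable (O) in
/-- The lattice `u O ^ 3`. -/
def lt (u : GF F) : LL O F := ⟨Lt O (u : MF F), lattice_Lt u⟩

theorem smul_lt' (g u : GF F) : g • lt O u = lt O (g * u) :=
  Subtype.ext (by
    change (Lt O (u : MF F)).map (lin O (g : MF F)) = Lt O ((g * u : GF F) : MF F)
    rw [map_Lt, Units.val_mul])

theorem exists_lt (L : LL O F) : ∃ u : GF F, L = lt O u := by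
  obtain ⟨u, hu⟩ := exists_Lt L.1 L.2
  exact ⟨u, Subtype.ext hu⟩

theorem lt_le_iff {u u' : GF F} : lt O u ≤ lt O u' ↔
    ∃ c : Matrix (Fin 3) (Fin 3) O, (u : MF F) = (u' : MF F) * c.map (algebraMap O F) :=
  Lt_le_iff

theorem smul_mono' (g : GF F) {L L' : LL O F} (h : L ≤ L') : g • L ≤ g • L' :=
  Submodule.map_mono (f := lin O (g : MF F)) h

/-! ### The volume -/

variable (w : Ord O F)

theorem det_ne (u : GF F) : (u : MF F).det ≠ 0 := by
  have := (Matrix.GeneralLinearGroup.det u).ne_zero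
  exact this

theorem ord_det_mul (u v : GF F) :
    w.ord ((u * v : GF F) : MF F).det = w.ord (u : MF F).det + w.ord (v : MF F).det := by
  rw [Units.val_mul, Matrix.det_mul, w.mul _ _ (det_ne u) (det_ne v)]

theorem det_le {u u' : GF F} (h : lt O u ≤ lt O u') :
    w.ord (u' : MF F).det ≤ w.ord (u : MF F).det ∧
      (w.ord (u' : MF F).det = w.ord (u : MF F).det → lt O u' ≤ lt O u) := by
  obtain ⟨c, hc⟩ := lt_le_iff.1 h
  have h1 : (u : MF F).det = (u' : MF F).det * algebraMap O F c.det := by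
    rw [hc, Matrix.det_mul, RingHom.map_det]
    rfl
  have h2 : algebraMap O F c.det ≠ 0 := by
    intro h0
    rw [h0, mul_zero] at h1
    exact det_ne u h1
  have h3 : w.ord (u : MF F).det = w.ord (u' : MF F).det + w.ord (algebraMap O F c.det) := by
    rw [h1, w.mul _ _ (det_ne u') h2]
  have h4 : 0 ≤ w.ord (algebraMap O F c.det) := (w.mem _ h2).1 ⟨_, rfl⟩
  refine ⟨by omega, fun he => ?_⟩
  have h5 : 0 ≤ w.ord (algebraMap O F c.det)⁻¹ := by
    rw [w.inv h2]
    omega
  obtain ⟨d, hd⟩ := (w.mem _ (inv_ne_zero h2)).2 h5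
  have h6 : c.det * d = 1 := by
    apply IsFractionRing.injective O F
    rw [map_mul, hd, map_one, mul_inv_cancel₀ h2]
  have h7 : IsUnit c := (Matrix.isUnit_iff_isUnit_det c).2 (IsUnit.of_mul_eq_one d h6)
  obtain ⟨C, hC⟩ := h7
  refine lt_le_iff.2 ⟨((C⁻¹ : (Matrix (Fin 3) (Fin 3) O)ˣ) : Matrix (Fin 3) (Fin 3) O), ?_⟩
  have h8 : c.map (algebraMap O F) *
      ((C⁻¹ : (Matrix (Fin 3) (Fin 3) O)ˣ) : Matrix (Fin 3) (Fin 3) O).map (algebraMap O F) =
        1 := by
    rw [← Matrix.map_mul, ← hC, ← Units.val_mul, mul_inv_cancel, Units.val_one,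
      Matrix.map_one _ (map_zero _) (map_one _)]
  rw [hc, Matrix.mul_assoc, h8, Matrix.mul_one]

/-- The valuation of the determinant. -/
noncomputable def vol (L : LL O F) : ℤ := w.ord ((Classical.choose (exists_lt L) : GF F) : MF F).det

theorem vol_lt' (u : GF F) : vol w (lt O u) = w.ord (u : MF F).det := by
  have h := Classical.choose_spec (exists_lt (lt O u))
  rw [vol]
  exact le_antisymm (det_le w h.le).1 (det_le w h.ge).1

theorem smul_vol' (g : GF F) (L : LL O F) : vol w (g • L) = w.ord (g : MF F).det + vol w L := by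
  obtain ⟨u, rfl⟩ := exists_lt L
  rw [smul_lt', vol_lt', vol_lt', ord_det_mul]

theorem vol_strict {L L' : LL O F} (h : L < L') : vol w L' < vol w L := by
  obtain ⟨u, rfl⟩ := exists_lt L
  obtain ⟨u', rfl⟩ := exists_lt L'
  rw [vol_lt', vol_lt']
  obtain ⟨h1, h2⟩ := det_le w h.le
  refine lt_of_le_of_ne h1 fun he => ?_
  exact absurd (h2 he) (not_le_of_gt h)

/-! ### Scalars -/

/-- Scalar matrices. -/
def scal : Fˣ →* GF F := Units.map (algebraMap F (MF F)).toMonoidHom

theorem scal_val (c : Fˣ) : ((scal c : GF F) : MF F) = algebraMap F (MF F) (c : F) := rfl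

theorem scal_comm (c : Fˣ) (g : GF F) : g * scal c = scal c * g := by
  apply Units.ext
  rw [Units.val_mul, Units.val_mul, scal_val]
  exact (Algebra.commutes _ _).symm

theorem det_scal (c : Fˣ) : ((scal c : GF F) : MF F).det = (c : F) ^ 3 := by
  rw [scal_val, Matrix.algebraMap_eq_diagonal, Matrix.det_diagonal]
  simp

/-- The prime element as a unit. -/
def pu : Fˣ := Units.mk0 w.π w.π_ne

/-- The lattice `π ^ k L`. -/
def shift (k : ℤ) (L : LL O F) : LL O F := scal (pu w ^ k) • L

theorem ord_det_scal (k : ℤ) : w.ord ((scal (pu w ^ k) : GF F) : MF F).det = 3 * k := by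
  have h1 : ((pu w ^ k : Fˣ) : F) = w.π ^ k := by
    rw [Units.val_zpow_eq_zpow_val]
    rfl
  rw [det_scal, h1, w.pow (zpow_ne_zero k w.π_ne), w.zpow]
  rfl

theorem arch' (L L' : LL O F) : ∃ k : ℤ, shift w k L ≤ L' := by
  obtain ⟨u, rfl⟩ := exists_lt L
  obtain ⟨u', rfl⟩ := exists_lt L'
  let m : MF F := ((u'⁻¹ * u : GF F) : MF F)
  let N : ℕ := ∑ i, ∑ j, (w.ord (m i j)).natAbs
  have hN : ∀ i j, -(N : ℤ) ≤ w.ord (m i j) := by
    intro i j
    have h1 : (w.ord (m i j)).natAbs ≤ N :=
      (Finset.single_le_sum (f := fun j => (w.ord (m i j)).natAbs) (fun _ _ => Nat.zero_le _)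
        (Finset.mem_univ j)).trans
        (Finset.single_le_sum (f := fun i => ∑ j, (w.ord (m i j)).natAbs)
          (fun _ _ => Nat.zero_le _) (Finset.mem_univ i))
    omega
  have hc : ∀ i j, ∃ a : O, algebraMap O F a = w.π ^ (N : ℤ) * m i j := by
    intro i j
    by_cases h0 : m i j = 0
    · exact ⟨0, by rw [h0, mul_zero, map_zero]⟩
    · refine (w.mem _ (mul_ne_zero (zpow_ne_zero _ w.π_ne) h0)).2 ?_
      rw [w.mul _ _ (zpow_ne_zero _ w.π_ne) h0, w.zpow]
      have := hN i j
      omega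
  choose c hc using hc
  refine ⟨N, ?_⟩
  rw [shift, smul_lt']
  refine lt_le_iff.2 ⟨Matrix.of c, ?_⟩
  have h1 : (Matrix.of c).map (algebraMap O F) = ((scal (pu w ^ (N : ℤ)) : GF F) : MF F) * m := by
    have h2 : ((pu w ^ (N : ℤ) : Fˣ) : F) = w.π ^ (N : ℤ) := by
      rw [Units.val_zpow_eq_zpow_val]
      rfl
    apply Matrix.ext
    intro i j
    rw [scal_val, h2, ← Algebra.smul_def, Matrix.smul_apply, smul_eq_mul]
    exact hc i j
  have h3 : u' * (scal (pu w ^ (N : ℤ)) * (u'⁻¹ * u)) = scal (pu w ^ (N : ℤ)) * u := by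
    rw [← mul_assoc u', scal_comm, mul_assoc, mul_inv_cancel_left]
  rw [h1, ← Units.val_mul, ← Units.val_mul, h3]

theorem shift_one (L : LL O F) : shift w 1 L ≤ L := by
  obtain ⟨u, rfl⟩ := exists_lt L
  rw [shift, smul_lt']
  obtain ⟨a, ha⟩ := (w.mem w.π w.π_ne).2 (by rw [w.ord_π]; exact zero_le_one)
  refine lt_le_iff.2 ⟨algebraMap O _ a, ?_⟩
  rw [zpow_one, ← scal_comm, Units.val_mul, scal_val]
  congr 1
  have h1 : ((pu w : Fˣ) : F) = w.π := rfl
  rw [h1, ← ha, Matrix.algebraMap_eq_diagonal, Matrix.algebraMap_eq_diagonal,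
    Matrix.diagonal_map (map_zero _)]
  rfl

/-- The group of all matrices whose determinant has valuation `0`. -/
def Gz : Subgroup (GF F) where
  carrier := {g | w.ord (g : MF F).det = 0}
  one_mem' := by
    change w.ord ((1 : GF F) : MF F).det = 0
    rw [Units.val_one, Matrix.det_one, w.one]
  mul_mem' {a b} ha hb := by
    change w.ord (a : MF F).det = 0 at ha
    change w.ord (b : MF F).det = 0 at hb
    change w.ord ((a * b : GF F) : MF F).det = 0
    rw [ord_det_mul, ha, hb, add_zero]
  inv_mem' {a} ha := by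
    change w.ord (a : MF F).det = 0 at ha
    change w.ord ((a⁻¹ : GF F) : MF F).det = 0
    have h := ord_det_mul w a a⁻¹
    rw [mul_inv_cancel, Units.val_one, Matrix.det_one, w.one, ha, zero_add] at h
    exact h.symm

/-- The group and the lattices. -/
noncomputable def gs : GS (Gz w) (LL O F) where
  sh := shift w
  sh_zero L := by rw [shift, zpow_zero, map_one, one_smul]
  sh_add a b L := by rw [shift, shift, shift, _root_.zpow_add, map_mul, mul_smul]
  sh_mono a _ _ h := smul_mono' _ h
  sh_one := shift_one w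
  vol := vol w
  vol_sh a L := by
    rw [shift, smul_vol', ord_det_scal, add_comm]
  vol_lt _ _ h := vol_strict w h
  arch := arch' w
  smul_le g _ _ h := smul_mono' (g : GF F) h
  smul_sh g a L := by
    change (g : GF F) • scal (pu w ^ a) • L = scal (pu w ^ a) • (g : GF F) • L
    rw [← mul_smul, ← mul_smul, scal_comm]
  smul_vol g L := by
    change vol w ((g : GF F) • L) = vol w L
    have h : w.ord ((g : GF F) : MF F).det = 0 := g.2
    rw [smul_vol', h, zero_add]

end Lat

end Pool.Agent.B3
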