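import Mathlib
import Pool.Agent.Lib.MP_8f66f0_al_B3.Lat

/-! The normalized valuation of a discrete valuation which is not trivial; characteristic
polynomials of the stabilizers of lattices. -/

set_option autoImplicit false

namespace Pool.Agent.B3

open WithZero Matrix Module

section OrdV

variable {F : Type} [Field F] (v : Valuation F (WithZero (Multiplicative ℤ)))

private theorem log_v_mul {x y : F} (hx : x ≠ 0) (hy : y ≠ 0) :
    log (v (x * y)) = log (v x) + log (v y) := by
  rw [map_mul, log_mul ((Valuation.ne_zero_iff v).2 hx) ((Valuation.ne_zero_iff v).2 hy)]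

private theorem log_v_pow {x : F} (hx : x ≠ 0) (n : ℕ) : log (v (x ^ n)) = n * log (v x) := by
  induction n with
  | zero => rw [pow_zero, map_one, log_one, Nat.cast_zero, zero_mul]
  | succ n ih =>
    rw [pow_succ, log_v_mul v (pow_ne_zero n hx) hx, ih, Nat.cast_succ, add_mul, one_mul]

private theorem log_v_inv {x : F} (hx : x ≠ 0) : log (v x⁻¹) = - log (v x) := by
  have h := log_v_mul v hx (inv_ne_zero hx)
  rw [mul_inv_cancel₀ hx, map_one, log_one] at h
  omega

private theorem log_v_zpow {x : F} (hx : x ≠ 0) (k : ℤ) : log (v (x ^ k)) = k * log (v x) := by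
  obtain ⟨n, rfl | rfl⟩ := k.eq_nat_or_neg
  · rw [zpow_natCast, log_v_pow v hx]
  · rw [_root_.zpow_neg, zpow_natCast, log_v_inv v (pow_ne_zero n hx), log_v_pow v hx, neg_mul]

private theorem le_one_iff {x : F} (hx : x ≠ 0) : v x ≤ 1 ↔ log (v x) ≤ 0 := by
  rw [← log_le_log ((Valuation.ne_zero_iff v).2 hx) one_ne_zero, log_one]

theorem exists_ord (hv : ∃ x : F, x ≠ 0 ∧ v x ≠ 1) :
    ∃ w : Ord v.valuationSubring F, ∀ x, x ≠ 0 → (w.ord x = 0 ↔ v x = 1) := by
  have hex : ∃ z : ℤ, 0 < z ∧ ∃ x : F, x ≠ 0 ∧ - log (v x) = z := by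
    obtain ⟨x, hx, hx1⟩ := hv
    have h1 : log (v x) ≠ 0 := by
      intro h
      apply hx1
      have h2 : v x ≤ 1 := (le_one_iff v hx).2 h.le
      have h3 : v x⁻¹ ≤ 1 := (le_one_iff v (inv_ne_zero hx)).2 (by rw [log_v_inv v hx, h]; rfl)
      rw [map_inv₀] at h3
      exact le_antisymm h2 ((inv_le_one₀ (zero_lt_iff.2 ((Valuation.ne_zero_iff v).2 hx))).1 h3)
    rcases lt_or_gt_of_ne h1 with h2 | h2
    · exact ⟨- log (v x), by omega, x, hx, rfl⟩
    · exact ⟨log (v x), h2, x⁻¹, inv_ne_zero hx, by rw [log_v_inv v hx, neg_neg]⟩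
  obtain ⟨e, ⟨he, π, hπ, hπe⟩, hmin⟩ := Int.exists_least_of_bdd
    (P := fun z => 0 < z ∧ ∃ x : F, x ≠ 0 ∧ - log (v x) = z) ⟨0, fun z hz => hz.1.le⟩ hex
  have hdvd : ∀ x : F, x ≠ 0 → ∃ q : ℤ, - log (v x) = e * q := by
    intro x hx
    refine ⟨(- log (v x)) / e, ?_⟩
    by_contra hne
    have h1 := Int.emod_nonneg (- log (v x)) he.ne'
    have h2 := Int.emod_lt_of_pos (- log (v x)) he
    have h3 := Int.mul_ediv_add_emod (- log (v x)) e
    have hpos : 0 < (- log (v x)) % e := by
      rcases h1.lt_or_eq with h4 | h4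
      · exact h4
      · rw [← h4, add_zero] at h3
        exact absurd h3.symm hne
    have h5 := hmin ((- log (v x)) % e) ⟨hpos, x * π ^ (-((- log (v x)) / e)),
      mul_ne_zero hx (zpow_ne_zero _ hπ), by
        rw [log_v_mul v hx (zpow_ne_zero _ hπ), log_v_zpow v hπ]
        have h6 : log (v π) = - e := by omega
        rw [h6]
        have h7 : - ((- log (v x)) / e) * -e = e * ((- log (v x)) / e) := by ring
        rw [h7]
        omega⟩
    omega
  choose! q hq using hdvd
  have hlog : ∀ x : F, x ≠ 0 → log (v x) = - (e * q x) := by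
    intro x hx
    have := hq x hx
    omega
  have hmem : ∀ x : F, x ≠ 0 → (v x ≤ 1 ↔ 0 ≤ q x) := by
    intro x hx
    rw [le_one_iff v hx, hlog x hx]
    constructor
    · intro h
      by_contra hlt
      push Not at hlt
      have : e * q x < 0 := mul_neg_of_pos_of_neg he hlt
      omega
    · intro h
      have : 0 ≤ e * q x := mul_nonneg he.le h
      omega
  have hmul : ∀ x y : F, x ≠ 0 → y ≠ 0 → q (x * y) = q x + q y := by
    intro x y hx hy
    have h1 := log_v_mul v hx hy
    rw [hlog _ (mul_ne_zero hx hy), hlog x hx, hlog y hy] at h1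
    have h2 : e * q (x * y) = e * (q x + q y) := by
      rw [mul_add]
      omega
    exact mul_left_cancel₀ he.ne' h2
  have hinv : ∀ x : F, x ≠ 0 → q x⁻¹ = - q x := by
    intro x hx
    have h0 : q 1 = 0 := by
      have := hmul 1 1 one_ne_zero one_ne_zero
      rw [mul_one] at this
      omega
    have h1 := hmul x x⁻¹ hx (inv_ne_zero hx)
    rw [mul_inv_cancel₀ hx, h0] at h1
    omega
  refine ⟨⟨q, π, hπ, ?_, hmul, ?_⟩, ?_⟩
  · have h1 := hlog π hπ
    have h2 : e * q π = e * 1 := by
      rw [mul_one]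
      omega
    exact mul_left_cancel₀ he.ne' h2
  · intro x hx
    rw [← hmem x hx]
    constructor
    · rintro ⟨a, rfl⟩
      exact a.2
    · intro h
      exact ⟨⟨x, h⟩, rfl⟩
  · intro x hx
    change q x = 0 ↔ v x = 1
    constructor
    · intro h
      have h1 := (hmem x hx).2 h.ge
      have h2 := (hmem x⁻¹ (inv_ne_zero hx)).2 (by rw [hinv x hx, h]; rfl)
      rw [map_inv₀] at h2
      exact le_antisymm h1 ((inv_le_one₀ (zero_lt_iff.2 ((Valuation.ne_zero_iff v).2 hx))).1 h2)
    · intro h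
      have h1 := (hmem x hx).1 h.le
      have h2 := (hmem x⁻¹ (inv_ne_zero hx)).1 (by rw [map_inv₀, h, inv_one])
      rw [hinv x hx] at h2
      omega

end OrdV

section Stab

variable {O F : Type} [CommRing O] [IsDomain O] [IsPrincipalIdealRing O] [Field F] [Algebra O F]
  [IsFractionRing O F]

/-- The coefficients of the characteristic polynomial of a matrix which preserves a lattice. -/
theorem charpoly_of_stab (g : GF F) (L : LL O F) (h : g • L = L) (k : ℕ) :
    ∃ a : O, algebraMap O F a = ((g : MF F).charpoly).coeff k := by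
  obtain ⟨u, rfl⟩ := exists_lt L
  rw [smul_lt'] at h
  obtain ⟨c, hc⟩ := lt_le_iff.1 h.le
  have h1 : ((u⁻¹ : GF F) : MF F) * (g : MF F) * (u : MF F) = c.map (algebraMap O F) := by
    rw [Matrix.mul_assoc, ← Units.val_mul g u, hc, ← Matrix.mul_assoc, ← Units.val_mul,
      inv_mul_cancel, Units.val_one, Matrix.one_mul]
  have h3 : (((u⁻¹ : GF F) : MF F) * (g : MF F) * (u : MF F)).charpoly =
      (g : MF F).charpoly := by
    rw [Matrix.charpoly_mul_comm, ← Matrix.mul_assoc, ← Units.val_mul, mul_inv_cancel,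
      Units.val_one, Matrix.one_mul]
  rw [h1, Matrix.charpoly_map] at h3
  exact ⟨c.charpoly.coeff k, by rw [← h3, Polynomial.coeff_map]⟩

end Stab

end Pool.Agent.B3
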