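import Mathlib
import Pool.Agent.Lib.MP_8f66f0_al_B3.OrdV
import Pool.Agent.Lib.MP_8f66f0_al_B3.AbsCx
import Pool.Agent.Lib.MP_8f66f0_al_Cx.Comp
import Pool.Agent.Lib.MP_8f66f0_al_Tree.Dvr
import Pool.Agent.Lib.MP_8f66f0_al_Tree.SpecE

/-! Descent along finitely many buildings of `GL_3`, for a class of groups which is closed under
actions on trees and on 2-complexes with the metric conditions. -/

set_option autoImplicit false

namespace Pool.Agent.B3

open Pool.Agent.TreeC Pool.Agent.Cx2

/-- A class of groups which is closed under isomorphism, directed unions, actions on trees and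
actions on 2-complexes with the metric conditions. -/
structure CCl (P : (G : Type) → [Group G] → Prop) : Prop extends TCl P where
  cplx : ∀ (G V C : Type) [Group G] [MulAction G V] [MulAction G C] (X : Cx G V C), X.Met →
    (∀ v : V, P (MulAction.stabilizer G v)) → P G

/-- The coefficients of the characteristic polynomial are in the valuation ring. -/
def Bd {F : Type} [Field F] (v : Valuation F (WithZero (Multiplicative ℤ))) (M : MF F) : Prop :=
  ∀ k : ℕ, v (M.charpoly.coeff k) ≤ 1

theorem step3 (P : (G : Type) → [Group G] → Prop) (hP : CCl P) (F : Type) [Field F]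
    (v : Valuation F (WithZero (Multiplicative ℤ))) (Γ : Type) [Group Γ] (ρ : Γ →* GF F)
    (hdet : ∀ g, v (ρ g : MF F).det = 1)
    (h : ∀ Δ : Subgroup Γ, (∀ g ∈ Δ, Bd v (ρ g : MF F)) → P Δ) : P Γ := by
  by_cases hv : ∃ x : F, x ≠ 0 ∧ v x ≠ 1
  · obtain ⟨w, hw⟩ := exists_ord v hv
    have hPID : IsPrincipalIdealRing v.valuationSubring := dvr F v
    let ρ' : Γ →* Gz w := ρ.codRestrict (Gz w) fun g => (hw _ (det_ne (ρ g))).2 (hdet g)
    let S : GS (Gz w) (LL v.valuationSubring F) := gs w
    have hne : Nonempty (LL v.valuationSubring F) := ⟨lt v.valuationSubring 1⟩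
    let _ : MulAction Γ S.V := MulAction.compHom S.V ρ'
    let _ : MulAction Γ S.C := MulAction.compHom S.C ρ'
    refine hP.cplx Γ S.V S.C (S.cx.comp ρ') (S.cx.comp_met GS.met ρ') fun x => ?_
    refine h _ fun g hg k => ?_
    have h1 : ρ' g • x = x := hg
    have h2 : ρ g • x.1 = x.1 := congrArg Subtype.val h1
    obtain ⟨a, ha⟩ := charpoly_of_stab (ρ g) x.1 h2 k
    rw [← ha]
    exact a.2
  · push Not at hv
    have h1 : ∀ x : F, v x ≤ 1 := by
      intro x
      by_cases hx : x = 0
      · rw [hx, map_zero]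
        exact zero_le_one
      · exact (hv x hx).le
    exact hP.iso _ _ Subgroup.topEquiv (h ⊤ fun g _ k => h1 _)

theorem desc3 (P : (G : Type) → [Group G] → Prop) (hP : CCl P) (Γ : Type) [Group Γ] (n : ℕ)
    (F : Fin n → Type) [∀ i, Field (F i)] (v : ∀ i, Valuation (F i) (WithZero (Multiplicative ℤ)))
    (ρ : ∀ i, Γ →* GF (F i)) (hdet : ∀ i g, v i (ρ i g : MF (F i)).det = 1)
    (h : ∀ Δ : Subgroup Γ, (∀ g ∈ Δ, ∀ i, Bd (v i) (ρ i g : MF (F i))) → P Δ) : P Γ := by
  classical
  have key : ∀ s : Finset (Fin n), ∀ Δ : Subgroup Γ,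
      (∀ Δ' : Subgroup Γ, Δ' ≤ Δ → (∀ g ∈ Δ', ∀ i ∈ s, Bd (v i) (ρ i g : MF (F i))) → P Δ') →
      P Δ := by
    intro s
    induction s using Finset.induction_on with
    | empty =>
      intro Δ hΔ
      exact hΔ Δ le_rfl fun g _ i hi => absurd hi (Finset.notMem_empty i)
    | insert i s _ ih =>
      intro Δ hΔ
      refine ih Δ fun Δ' hΔ' hs => ?_
      refine step3 P hP (F i) (v i) Δ' ((ρ i).comp Δ'.subtype) (fun g => hdet i g) fun K hK => ?_
      have h6 : P (K.map Δ'.subtype) := by
        refine hΔ _ ?_ ?_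
        · rintro _ ⟨g, _, rfl⟩
          exact hΔ' g.2
        · rintro _ ⟨g, hg, rfl⟩ j hj
          rcases Finset.mem_insert.1 hj with rfl | hj
          · exact hK g hg
          · exact hs g g.2 j hj
      exact hP.iso _ _ (K.equivMapOfInjective Δ'.subtype Δ'.subtype_injective).symm h6
  have h6 : P (⊤ : Subgroup Γ) := by
    refine key Finset.univ ⊤ fun Δ' _ hs => h Δ' fun g hg i => hs g hg i (Finset.mem_univ i)
  exact hP.iso _ _ Subgroup.topEquiv h6

end Pool.Agent.B3
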