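import Mathlib
import Pool.Agent.Lib.MP_8f66f0_al_B3.Desc3
import Pool.Agent.Lib.MP_8f66f0_al_B3.ValV
import Pool.Agent.Lib.MP_8f66f0_al_TreeQ.Zab

/-! Representations in `GL_3` of an arbitrary commutative ring: a group belongs to every class of
groups which is closed under actions on trees and 2-complexes with the metric conditions, if its
subgroups whose elements have characteristic polynomials with integral coefficients belong to the
class. -/

set_option autoImplicit false

namespace Pool.Agent.B3

open Pool.Agent.TreeC Pool.Agent.Cx2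

/-- The coefficients of the characteristic polynomials of all elements of `D` are integral over
`ℤ`. -/
def IntCh {G R : Type} [Group G] [CommRing R] (ρ : G →* Matrix.GeneralLinearGroup (Fin 3) R)
    (D : Subgroup G) : Prop :=
  ∀ g ∈ D, ∀ k : ℕ, IsIntegral ℤ ((ρ g : Matrix (Fin 3) (Fin 3) R).charpoly.coeff k)

/-- The reduction theorem for `GL_3`. -/
def S_red3 : Prop :=
  ∀ (P : (G : Type) → [Group G] → Prop), CCl P → ∀ (R G : Type) [CommRing R] [Group G]
    (ρ : G →* Matrix.GeneralLinearGroup (Fin 3) R),
    (∀ D : Subgroup G, IntCh ρ D → P D) → P G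

/-- A discrete valuation as a homomorphism from the units. -/
private noncomputable def vh {F : Type} [Field F]
    (v : Valuation F (WithZero (Multiplicative ℤ))) : Fˣ →* Multiplicative ℤ where
  toFun u := Multiplicative.ofAdd (WithZero.log (v (u : F)))
  map_one' := by
    rw [Units.val_one, map_one, WithZero.log_one]
    rfl
  map_mul' a b := by
    rw [← ofAdd_add, Units.val_mul, map_mul,
      WithZero.log_mul ((Valuation.ne_zero_iff v).2 a.ne_zero)
        ((Valuation.ne_zero_iff v).2 b.ne_zero)]

private theorem vh_ker {F : Type} [Field F] (v : Valuation F (WithZero (Multiplicative ℤ)))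
    (u : Fˣ) (h : vh v u = 1) : v (u : F) = 1 := by
  have h1 : WithZero.log (v (u : F)) = 0 := h
  have h2 := WithZero.exp_log ((Valuation.ne_zero_iff v).2 u.ne_zero)
  rw [h1, WithZero.exp_zero] at h2
  exact h2.symm

private theorem core3 (P : (G : Type) → [Group G] → Prop) (hP : CCl P) (h1 : S_val)
    (h2 : S_ext) (R : Type) [CommRing R]
    (hft : Algebra.FiniteType ℤ R) (G : Type) [Group G]
    (ρ : G →* Matrix.GeneralLinearGroup (Fin 3) R)
    (hyp : ∀ D : Subgroup G, IntCh ρ D → P D) : P G := by
  classical
  obtain ⟨n, F, _, j, w, hw⟩ := valV h1 h2 R hft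
  let ρF : ∀ i, G →* GF (F i) := fun i => (Matrix.GeneralLinearGroup.map (j i)).comp ρ
  have ech : ∀ (i : Fin n) (g : G) (k : ℕ), (ρF i g : MF (F i)).charpoly.coeff k =
      j i ((ρ g : Matrix (Fin 3) (Fin 3) R).charpoly.coeff k) := by
    intro i g k
    have e0 : (ρF i g : MF (F i)) = (ρ g : Matrix (Fin 3) (Fin 3) R).map (j i) := rfl
    rw [e0, Matrix.charpoly_map, Polynomial.coeff_map]
  -- the kernel of the valuations of the determinants
  let f : G →* (Fin n → Multiplicative ℤ) :=
    { toFun := fun g i => vh (w i) (Matrix.GeneralLinearGroup.det (ρF i g))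
      map_one' := by
        funext i
        simp
      map_mul' := by
        intro a b
        funext i
        simp }
  refine TreeQ.zab TreeQ.zr P hP.toTCl G (Fin n → Multiplicative ℤ) f ?_ ?_
  · intro a m hm ha
    funext i
    have e1 : (a i) ^ m = 1 := congrFun ha i
    have e2 : (m : ℤ) * (Multiplicative.toAdd (a i)) = 0 := by
      have := congrArg Multiplicative.toAdd e1
      rw [toAdd_pow, toAdd_one, nsmul_eq_mul] at this
      exact this
    have e3 : Multiplicative.toAdd (a i) = 0 := by
      rcases mul_eq_zero.1 e2 with h | h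
      · omega
      · exact h
    exact e3
  · refine desc3 P hP f.ker n F w (fun i => (ρF i).comp f.ker.subtype) ?_ ?_
    · intro i g
      have e1 : f (g : G) = 1 := g.2
      exact vh_ker (w i) _ (congrFun e1 i)
    · intro Δ hΔ
      have hD : IntCh ρ (Δ.map f.ker.subtype) := by
        rintro _ ⟨g, hg, rfl⟩ k
        refine hw _ fun i => ?_
        rw [← ech]
        exact hΔ g hg i k
      exact hP.iso _ _ (Δ.equivMapOfInjective f.ker.subtype f.ker.subtype_injective).symm
        (hyp _ hD)

theorem red3 (h1 : S_val) (h2 : S_ext) : S_red3 := by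
  classical
  intro P hP R G _ _ ρ hyp
  refine hP.directed G {K | K.FG} ⟨⊥, Subgroup.FG.bot⟩ ?_ ?_ ?_
  · intro K hK K' hK'
    exact ⟨K ⊔ K', Subgroup.FG.sup hK hK', le_sup_left, le_sup_right⟩
  · intro g
    exact ⟨Subgroup.closure {g}, ⟨{g}, by simp⟩, Subgroup.subset_closure rfl⟩
  · intro K hK
    -- the ring generated by the entries
    have hfg : Group.FG K := (Group.fg_iff_subgroup_fg K).2 hK
    let ι : K →* Matrix.GeneralLinearGroup (Fin 3) R := ρ.comp K.subtype
    obtain ⟨S, hS⟩ := Group.fg_def.1 hfg
    let T : Finset R := S.biUnion fun s => (Finset.univ : Finset (Fin 3 × Fin 3)).biUnion fun q =>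
      {(ι s : Matrix (Fin 3) (Fin 3) R) q.1 q.2, (ι s⁻¹ : Matrix (Fin 3) (Fin 3) R) q.1 q.2}
    let R0 : Subalgebra ℤ R := Algebra.adjoin ℤ (T : Set R)
    have hmem : ∀ g : K, ∀ i k, (ι g : Matrix (Fin 3) (Fin 3) R) i k ∈ R0 ∧
        (ι g⁻¹ : Matrix (Fin 3) (Fin 3) R) i k ∈ R0 := by
      intro g
      have hg : g ∈ Subgroup.closure (S : Set K) := by
        rw [hS]
        exact Subgroup.mem_top g
      induction hg using Subgroup.closure_induction with
      | mem x hx =>
        intro i k
        constructor
        · apply Algebra.subset_adjoin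
          simp only [T, Finset.coe_biUnion, Set.mem_iUnion]
          exact ⟨x, hx, (i, k), by simp, by simp⟩
        · apply Algebra.subset_adjoin
          simp only [T, Finset.coe_biUnion, Set.mem_iUnion]
          exact ⟨x, hx, (i, k), by simp, by simp⟩
      | one =>
        intro i k
        rw [inv_one, map_one]
        have h1 : ((1 : Matrix.GeneralLinearGroup (Fin 3) R) : Matrix (Fin 3) (Fin 3) R) i k ∈
            R0 := by
          rw [Units.val_one, Matrix.one_apply]
          split_ifs
          · exact R0.one_mem
          · exact R0.zero_mem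
        exact ⟨h1, h1⟩
      | mul x y _ _ hx hy =>
        intro i k
        rw [mul_inv_rev, map_mul, map_mul, Units.val_mul, Units.val_mul, Matrix.mul_apply,
          Matrix.mul_apply]
        exact ⟨R0.sum_mem fun l _ => R0.mul_mem (hx i l).1 (hy l k).1,
          R0.sum_mem fun l _ => R0.mul_mem (hy i l).2 (hx l k).2⟩
      | inv x _ hx =>
        intro i k
        rw [inv_inv]
        exact ⟨(hx i k).2, (hx i k).1⟩
    let J : K →* Matrix (Fin 3) (Fin 3) R0 :=
      { toFun := fun g => Matrix.of fun i k =>
          ⟨(ι g : Matrix (Fin 3) (Fin 3) R) i k, (hmem g i k).1⟩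
        map_one' := by
          ext i k
          change (ι 1 : Matrix (Fin 3) (Fin 3) R) i k =
            (((1 : Matrix (Fin 3) (Fin 3) R0) i k : R0) : R)
          rw [map_one, Units.val_one, Matrix.one_apply, Matrix.one_apply]
          split_ifs <;> rfl
        map_mul' := by
          intro x y
          ext i k
          have e1 : (ι (x * y) : Matrix (Fin 3) (Fin 3) R) i k =
              ∑ l, (ι x : Matrix (Fin 3) (Fin 3) R) i l *
                (ι y : Matrix (Fin 3) (Fin 3) R) l k := by
            rw [map_mul, Units.val_mul, Matrix.mul_apply]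
          refine e1.trans ?_
          rw [Matrix.mul_apply, AddSubmonoidClass.coe_finsetSum]
          rfl }
    let u : K →* Matrix.GeneralLinearGroup (Fin 3) R0 := J.toHomUnits
    have hft : Algebra.FiniteType ℤ R0 := by
      rw [← Subalgebra.fg_iff_finiteType]
      exact Subalgebra.fg_adjoin_finset T
    refine core3 P hP h1 h2 R0 hft K u ?_
    intro D hD
    have hD' : IntCh ρ (D.map K.subtype) := by
      rintro _ ⟨g, hg, rfl⟩ k
      have e1 := hD g hg k
      have e3 : (ρ (K.subtype g) : Matrix (Fin 3) (Fin 3) R) =
          (u g : Matrix (Fin 3) (Fin 3) R0).map R0.val.toRingHom := rfl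
      rw [e3, Matrix.charpoly_map, Polynomial.coeff_map]
      exact e1.map R0.val
    exact hP.iso _ _ (D.equivMapOfInjective K.subtype K.subtype_injective).symm (hyp _ hD')

end Pool.Agent.B3
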