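import Mathlib
import Pool.Agent.Lib.MP_8f66f0_al_B3.Red3
import Pool.Agent.Lib.MP_8f66f0_al_Tree.AllP

/-! Torsion free subgroups of `GL_3` over rings of positive characteristic. -/

set_option autoImplicit false

namespace Pool.Agent.B3

open Pool.Agent.TreeC Pool.Agent.Cx2

/-- A matrix over a ring of positive characteristic with an integral characteristic polynomial has
finite order. -/
theorem finite_order {d : Type} [Fintype d] [DecidableEq d] (R : Type) [CommRing R] (m : ℕ)
    (hm : 0 < m) (hR : (m : R) = 0) (c : Matrix.GeneralLinearGroup d R)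
    (hc : ∀ k : ℕ, IsIntegral ℤ ((c : Matrix d d R).charpoly.coeff k)) :
    ∃ n : ℕ, 0 < n ∧ c ^ n = 1 := by
  classical
  cases subsingleton_or_nontrivial R with
  | inl hs =>
    refine ⟨1, Nat.one_pos, ?_⟩
    apply Units.ext
    apply Matrix.ext
    intro i j
    exact Subsingleton.elim _ _
  | inr hn =>
    -- `c` is integral over `ℤ`
    have h1 : IsIntegral (integralClosure ℤ R) (c : Matrix d d R) := by
      have hl : (c : Matrix d d R).charpoly ∈
          Polynomial.lifts (algebraMap (integralClosure ℤ R) R) := by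
        rw [Polynomial.lifts_iff_coeff_lifts]
        intro k
        exact ⟨⟨_, hc k⟩, rfl⟩
      obtain ⟨p, hp, _, hpm⟩ := Polynomial.lifts_and_degree_eq_and_monic hl
        (Matrix.charpoly_monic _)
      refine ⟨p, hpm, ?_⟩
      have h2 := Matrix.aeval_self_charpoly (c : Matrix d d R)
      rw [← hp, Polynomial.aeval_map_algebraMap] at h2
      exact h2
    have h2 : IsIntegral ℤ (c : Matrix d d R) := isIntegral_trans (A := integralClosure ℤ R) _ h1
    -- the powers of `c` are in a finite set
    let A : Subalgebra ℤ (Matrix d d R) := Algebra.adjoin ℤ {(c : Matrix d d R)}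
    have hfg : (Subalgebra.toSubmodule A).FG := h2.fg_adjoin_singleton
    have hmA : ∀ a ∈ A, (m : ℤ) • a = 0 := by
      intro a _
      apply Matrix.ext
      intro i j
      rw [Matrix.smul_apply, Matrix.zero_apply, natCast_zsmul, nsmul_eq_mul, hR, zero_mul]
    have hfin : (A : Set (Matrix d d R)).Finite := by
      obtain ⟨S, hS⟩ := hfg
      have : (A : Set (Matrix d d R)) ⊆ Set.range fun f : (S → ZMod m) =>
          ∑ s : S, ((f s).cast : ℤ) • (s : Matrix d d R) := by
        intro a ha
        have ha' : a ∈ Submodule.span ℤ (S : Set (Matrix d d R)) := by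
          rw [hS]
          exact ha
        have : NeZero m := ⟨hm.ne'⟩
        obtain ⟨g, hg⟩ := (Submodule.mem_span_finset'.1 ha')
        refine ⟨fun s => ((g s : ℤ) : ZMod m), ?_⟩
        rw [← hg]
        refine Finset.sum_congr rfl fun s _ => ?_
        have h3 : ((m : ℤ)) ∣ ((((g s : ℤ) : ZMod m).cast : ℤ) - g s) := by
          rw [← ZMod.intCast_zmod_eq_zero_iff_dvd, Int.cast_sub, ZMod.intCast_zmod_cast, sub_self]
        obtain ⟨q, hq⟩ := h3
        have h4 : (((g s : ℤ) : ZMod m).cast : ℤ) = g s + m * q := by omega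
        have hsA : (s : Matrix d d R) ∈ A := by
          have : (s : Matrix d d R) ∈ Submodule.span ℤ (S : Set (Matrix d d R)) :=
            Submodule.subset_span s.2
          rw [hS] at this
          exact this
        change (((g s : ℤ) : ZMod m).cast : ℤ) • (s : Matrix d d R) = g s • (s : Matrix d d R)
        rw [h4, add_smul, mul_comm, mul_smul, hmA _ hsA, smul_zero, add_zero]
      have hne : NeZero m := ⟨hm.ne'⟩
      exact (Set.finite_range _).subset this
    have hpow : ∀ k : ℕ, (c : Matrix d d R) ^ k ∈ (A : Set (Matrix d d R)) := fun k =>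
      A.pow_mem (Algebra.subset_adjoin rfl) k
    obtain ⟨a, _, b, _, hab, he⟩ := Set.infinite_univ.exists_ne_map_eq_of_mapsTo
      (f := fun k : ℕ => (c : Matrix d d R) ^ k) (fun k _ => hpow k) hfin
    have key : ∀ a b : ℕ, a < b → (c : Matrix d d R) ^ a = (c : Matrix d d R) ^ b →
        ∃ n : ℕ, 0 < n ∧ c ^ n = 1 := by
      intro a b hab he
      refine ⟨b - a, by omega, ?_⟩
      have h5 : c ^ a = c ^ b := by
        apply Units.ext
        rw [Units.val_pow_eq_pow_val, Units.val_pow_eq_pow_val]
        exact he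
      have h6 : c ^ b = c ^ a * c ^ (b - a) := by
        rw [← pow_add]
        congr 1
        omega
      rw [h6] at h5
      exact (mul_eq_left.1 h5.symm)
    rcases lt_or_gt_of_ne hab with h | h
    · exact key a b h he
    · exact key b a h he.symm

/-- The theorem for `GL_3`. -/
def S_gl3P : Prop :=
  ∀ (P : (G : Type) → [Group G] → Prop), CCl P → ∀ (R : Type) [CommRing R] (m : ℕ), 0 < m →
    (m : R) = 0 → ∀ Γ : Subgroup (Matrix.GeneralLinearGroup (Fin 3) R),
      (∀ g ∈ Γ, ∀ n : ℕ, 0 < n → g ^ n = 1 → g = 1) → P Γ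

theorem gl3P (h : S_red3) : S_gl3P := by
  intro P hP R _ m hm hR Γ hΓ
  refine h P hP R Γ Γ.subtype fun D hD => ?_
  have h1 : ∀ g : D, g = 1 := by
    intro g
    obtain ⟨n, hn, hg⟩ := finite_order R m hm hR ((g : Γ) : Matrix.GeneralLinearGroup (Fin 3) R)
      (hD g g.2)
    exact Subtype.ext (Subtype.ext (hΓ _ (g : Γ).2 n hn hg))
  have : Subsingleton D := ⟨fun a b => by rw [h1 a, h1 b]⟩
  exact hP.triv D

theorem red3_all : S_red3 := red3 val_all (ext dvr)

theorem gl3_all : S_gl3P := gl3P red3_all

end Pool.Agent.B3
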